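import Pool.Agent.MP_7a7825_ag.Defs

open LinearAlgebra.Projectivization

namespace Pool.Agent.MP_7a7825_ag

/-- the projection from nonzero vectors -/
noncomputable def proj (v : {v : V // v ≠ 0}) : P5 := Projectivization.mk ℝ v.1 v.2

lemma continuous_proj : Continuous proj := by
  exact continuous_quotient_mk' (s := projectivizationSetoid ℝ V)

lemma isQuotientMap_proj : Topology.IsQuotientMap proj := by
  exact isQuotientMap_quotient_mk' (s := projectivizationSetoid ℝ V)

lemma rep_mk (v : V) (hv : v ≠ 0) : ∃ c : ℝ, c ≠ 0 ∧ (Projectivization.mk ℝ v hv).rep = c • v := by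
  obtain ⟨a, ha⟩ := Projectivization.exists_smul_eq_mk_rep ℝ v hv
  exact ⟨a, a.ne_zero, ha.symm⟩

lemma isOpen_iff_proj (O : Set P5) : IsOpen O ↔ IsOpen (proj ⁻¹' O) :=
  isQuotientMap_proj.isOpen_preimage.symm

/-- Pluecker polynomial -/
def plu (v : V) : ℝ := v 0 * v 5 - v 1 * v 4 + v 3 * v 2

lemma plu_smul (c : ℝ) (v : V) : plu (c • v) = c ^ 2 * plu v := by
  simp [plu]; ring

lemma mk_mem_Gr {v : V} (hv : v ≠ 0) : Projectivization.mk ℝ v hv ∈ Gr ↔ plu v = 0 := by
  obtain ⟨c, hc, h⟩ := rep_mk v hv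
  have : Projectivization.mk ℝ v hv ∈ Gr ↔ plu (Projectivization.mk ℝ v hv).rep = 0 := Iff.rfl
  rw [this, h, plu_smul]
  simp [hc]

lemma mk_mem_hyperplane {v : V} (hv : v ≠ 0) (l : V →ₗ[ℝ] ℝ) :
    Projectivization.mk ℝ v hv ∈ hyperplane l ↔ l v = 0 := by
  obtain ⟨c, hc, h⟩ := rep_mk v hv
  have : Projectivization.mk ℝ v hv ∈ hyperplane l ↔ l (Projectivization.mk ℝ v hv).rep = 0 :=
    Iff.rfl
  rw [this, h, map_smul]
  simp [hc]

/-- the condition `0 < l * l'` is independent of the representative -/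
lemma mul_rep_pos {v : V} (hv : v ≠ 0) (l l' : V →ₗ[ℝ] ℝ) :
    0 < l (Projectivization.mk ℝ v hv).rep * l' (Projectivization.mk ℝ v hv).rep ↔
      0 < l v * l' v := by
  obtain ⟨c, hc, h⟩ := rep_mk v hv
  rw [h, map_smul, map_smul, smul_eq_mul, smul_eq_mul,
    show c * l v * (c * l' v) = c ^ 2 * (l v * l' v) by ring]
  have : 0 < c ^ 2 := by positivity
  constructor
  · intro h1; exact (pos_iff_pos_of_mul_pos h1).mp this
  · intro h1; positivity

lemma mul_rep_nonneg {v : V} (hv : v ≠ 0) (l l' : V →ₗ[ℝ] ℝ) :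
    0 ≤ l (Projectivization.mk ℝ v hv).rep * l' (Projectivization.mk ℝ v hv).rep ↔
      0 ≤ l v * l' v := by
  obtain ⟨c, hc, h⟩ := rep_mk v hv
  rw [h, map_smul, map_smul, smul_eq_mul, smul_eq_mul,
    show c * l v * (c * l' v) = c ^ 2 * (l v * l' v) by ring]
  have : 0 < c ^ 2 := by positivity
  constructor
  · intro h1; exact nonneg_of_mul_nonneg_right h1 this
  · intro h1; positivity

lemma isOpen_mul_pos (l l' : V →ₗ[ℝ] ℝ) : IsOpen {x : P5 | 0 < l x.rep * l' x.rep} := by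
  rw [isOpen_iff_proj]
  have : proj ⁻¹' {x : P5 | 0 < l x.rep * l' x.rep} = {v | 0 < l v.1 * l' v.1} := by
    ext ⟨v, hv⟩
    exact mul_rep_pos hv l l'
  rw [this]
  apply isOpen_lt continuous_const
  have h1 := l.continuous_of_finiteDimensional
  have h2 := l'.continuous_of_finiteDimensional
  fun_prop

lemma isClosed_mul_nonneg (l l' : V →ₗ[ℝ] ℝ) : IsClosed {x : P5 | 0 ≤ l x.rep * l' x.rep} := by
  have : {x : P5 | 0 ≤ l x.rep * l' x.rep}ᶜ = {x : P5 | 0 < (-l) x.rep * l' x.rep} := by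
    ext x; simp
  rw [← isOpen_compl_iff, this]
  exact isOpen_mul_pos _ _

lemma exists_mk (x : P5) : ∃ v : V, ∃ hv : v ≠ 0, Projectivization.mk ℝ v hv = x :=
  ⟨x.rep, x.rep_nonzero, x.mk_rep⟩

/-- homogeneous polynomials: vanishing is independent of the representative -/
lemma eval_rep_eq_zero {f : MvPolynomial (Fin 6) ℝ} {n : ℕ} (hf : f.IsHomogeneous n) {v : V}
    (hv : v ≠ 0) : MvPolynomial.eval (Projectivization.mk ℝ v hv).rep f = 0 ↔
      MvPolynomial.eval v f = 0 := by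
  obtain ⟨c, hc, h⟩ := rep_mk v hv
  rw [h]
  have key : MvPolynomial.eval (c • v) f = c ^ n * MvPolynomial.eval v f := by
    have h1 := hf
    rw [MvPolynomial.eval_eq, MvPolynomial.eval_eq, Finset.mul_sum]
    apply Finset.sum_congr rfl
    intro d hd
    have hdeg : d.degree = n := by
      have := h1 (MvPolynomial.mem_support_iff.mp hd)
      rwa [Finsupp.degree_eq_weight_one]
    have : ∏ i ∈ d.support, (c • v) i ^ d i = c ^ n * ∏ i ∈ d.support, v i ^ d i := by
      simp only [Pi.smul_apply, smul_eq_mul, mul_pow, Finset.prod_mul_distrib]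
      congr 1
      rw [Finset.prod_pow_eq_pow_sum]
      congr 1
    rw [this]; ring
  rw [key]
  simp [hc]

end Pool.Agent.MP_7a7825_ag
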