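import Pool.Agent.MP_7a7825_ag.Params

open LinearAlgebra.Projectivization

namespace Pool.Agent.MP_7a7825_ag

variable {h : V →ₗ[ℝ] ℝ}

/-- the index of the form of `S` among the forms of the polytope -/
def idx : Fin 4 ⊕ Fin 1 → Fin 6 ⊕ Fin 1 := Sum.elim ![Sum.inl 0, Sum.inl 3, Sum.inl 2, Sum.inl 5]
  (fun _ => Sum.inr 0)

lemma facetForms_eq (j : Fin 4 ⊕ Fin 1) :
    facetForms (fun _ : Fin 1 => h) j = forms h (idx j) := by
  rcases j with i | i
  · fin_cases i <;> rfl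
  · rfl

lemma idx_injective : Function.Injective idx := by
  intro i j hij
  revert i j
  decide

/-- the hyperplane sections -/
def Cset (h : V →ₗ[ℝ] ℝ) (j : Fin 4 ⊕ Fin 1) : Set P5 := Gr ∩ hyperplane (forms h (idx j))

noncomputable def paramC (hpf : pf (coeffs h) ≠ 0) (j : Fin 4 ⊕ Fin 1) : Param (Cset h j) :=
  match j with
  | Sum.inl 0 => param12
  | Sum.inl 1 => param14
  | Sum.inl 2 => param23
  | Sum.inl 3 => param34
  | Sum.inr _ => paramH h hpf

lemma isZariskiClosed_Gr : IsZariskiClosed Gr := by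
  refine ⟨{.X 0 * .X 5 - .X 1 * .X 4 + .X 3 * .X 2}, ?_, ?_⟩
  · intro f hf
    rw [Set.mem_singleton_iff] at hf
    subst hf
    refine ⟨1 + 1, ?_⟩
    apply MvPolynomial.IsHomogeneous.add
    · apply MvPolynomial.IsHomogeneous.sub
      · exact (MvPolynomial.isHomogeneous_X _ _).mul (MvPolynomial.isHomogeneous_X _ _)
      · exact (MvPolynomial.isHomogeneous_X _ _).mul (MvPolynomial.isHomogeneous_X _ _)
    · exact (MvPolynomial.isHomogeneous_X _ _).mul (MvPolynomial.isHomogeneous_X _ _)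
  · ext x
    simp [Gr]

lemma isZariskiClosed_hyperplane (l : V →ₗ[ℝ] ℝ) : IsZariskiClosed (hyperplane l) := by
  refine ⟨{∑ i, MvPolynomial.C (coeffs l i) * MvPolynomial.X i}, ?_, ?_⟩
  · intro f hf
    rw [Set.mem_singleton_iff] at hf
    subst hf
    refine ⟨1, ?_⟩
    apply MvPolynomial.IsHomogeneous.sum
    intro i _
    simpa using (MvPolynomial.isHomogeneous_C (Fin 6) (coeffs l i)).mul
      (MvPolynomial.isHomogeneous_X ℝ i)
  · ext x
    simp only [hyperplane, Set.mem_ofPred_eq, Set.mem_singleton_iff, forall_eq]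
    rw [apply_eq_coeffs l x.rep]
    simp

lemma IsZariskiClosed.inter {Z₁ Z₂ : Set P5} (h₁ : IsZariskiClosed Z₁) (h₂ : IsZariskiClosed Z₂) :
    IsZariskiClosed (Z₁ ∩ Z₂) := by
  obtain ⟨I₁, hI₁, rfl⟩ := h₁
  obtain ⟨I₂, hI₂, rfl⟩ := h₂
  refine ⟨I₁ ∪ I₂, ?_, ?_⟩
  · rintro f (hf | hf)
    · exact hI₁ f hf
    · exact hI₂ f hf
  · ext x
    constructor
    · rintro ⟨h1, h2⟩ f (hf | hf)
      · exact h1 f hf
      · exact h2 f hf
    · intro hx
      exact ⟨fun f hf => hx f (Or.inl hf), fun f hf => hx f (Or.inr hf)⟩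

lemma isZariskiClosed_Cset (j) : IsZariskiClosed (Cset h j) :=
  isZariskiClosed_Gr.inter (isZariskiClosed_hyperplane _)

/-- the relatively open test set for the `j`-th facet, for an auxiliary form `g` -/
def Oset (h g : V →ₗ[ℝ] ℝ) (j : Fin 4 ⊕ Fin 1) : Set P5 :=
  {x | (∀ a b, a ≠ idx j → b ≠ idx j → 0 < forms h a x.rep * forms h b x.rep) ∧
    (j = Sum.inr 0 → 0 < g x.rep * g x.rep)}

lemma isOpen_Oset (g : V →ₗ[ℝ] ℝ) (j) : IsOpen (Oset h g j) := by
  have : Oset h g j = (⋂ a, ⋂ b, ⋂ (_ : a ≠ idx j), ⋂ (_ : b ≠ idx j),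
      {x : P5 | 0 < forms h a x.rep * forms h b x.rep}) ∩
      ⋂ (_ : j = Sum.inr 0), {x : P5 | 0 < g x.rep * g x.rep} := by
    ext x; simp [Oset]
  rw [this]
  apply IsOpen.inter
  · apply isOpen_iInter_of_finite
    intro a
    apply isOpen_iInter_of_finite
    intro b
    apply isOpen_iInter_of_finite
    intro _
    apply isOpen_iInter_of_finite
    intro _
    exact isOpen_mul_pos _ _
  · apply isOpen_iInter_of_finite
    intro _
    exact isOpen_mul_pos _ _

/-- the auxiliary form -/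
def auxForm (h : V →ₗ[ℝ] ℝ) : V →ₗ[ℝ] ℝ := coeffs h 0 • coord 4 + coeffs h 1 • coord 5

lemma auxForm_apply (v : V) : auxForm h v = coeffs h 0 * v 4 + coeffs h 1 * v 5 := rfl

/-- interior points of `S` -/
lemma mem_interiorIn {v : V} (hv : v ≠ 0) (hp : plu v = 0) (H : ∀ a, 0 < forms h a v) :
    Projectivization.mk ℝ v hv ∈ interiorIn Gr (Pent h ∩ Gr) := by
  refine ⟨(mk_mem_Gr hv).mpr hp, {x | ∀ a b, 0 < forms h a x.rep * forms h b x.rep}, ?_, ?_, ?_⟩
  · have : {x : P5 | ∀ a b, 0 < forms h a x.rep * forms h b x.rep} =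
        ⋂ a, ⋂ b, {x : P5 | 0 < forms h a x.rep * forms h b x.rep} := by
      ext x; simp
    rw [this]
    exact isOpen_iInter_of_finite fun a => isOpen_iInter_of_finite fun b => isOpen_mul_pos _ _
  · intro a b
    exact (mul_rep_pos hv _ _).mpr (mul_pos (H a) (H b))
  · rintro x ⟨hx, hG⟩
    exact ⟨fun a b => (hx a b).le, hG⟩

/-- boundary points of `S`, from a direction in which the `j`-th form decreases -/
lemma mem_bdry {v d : V} (hv : v ≠ 0) (hpl : ∀ ε : ℝ, plu (v + ε • d) = 0)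
    (j : Fin 6 ⊕ Fin 1) (hj : forms h j v = 0) (hjd : forms h j d < 0)
    (H : ∀ k, k ≠ j → 0 < forms h k v) :
    Projectivization.mk ℝ v hv ∈ bdry (Pent h ∩ Gr) := by
  have hp : plu v = 0 := by simpa using hpl 0
  refine ⟨⟨(mk_mem_Pent hv).mpr fun a b => mul_nonneg ?_ ?_, (mk_mem_Gr hv).mpr hp⟩, ?_⟩
  · by_cases ha : a = j
    · rw [ha, hj]
    · exact (H a ha).le
  · by_cases hb : b = j
    · rw [hb, hj]
    · exact (H b hb).le
  · rintro ⟨-, O, hO, hvO, hsub⟩
    obtain ⟨k, hk⟩ : ∃ k : Fin 6 ⊕ Fin 1, k ≠ j := by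
      rcases j with i | i
      · exact ⟨Sum.inr 0, by simp⟩
      · exact ⟨Sum.inl 0, by simp⟩
    -- the preimage of O in V
    have h1 : IsOpen {u : V | ∃ hu : u ≠ 0, Projectivization.mk ℝ u hu ∈ O} := by
      have h2 : IsOpen (proj ⁻¹' O) := (isOpen_iff_proj O).mp hO
      have h3 : IsOpen ({v : V | v ≠ 0}) := isOpen_ne
      have h4 := (h3.isOpenEmbedding_subtypeVal).isOpenMap _ h2
      convert h4 using 1
      ext v
      constructor
      · rintro ⟨hv, hm⟩; exact ⟨⟨v, hv⟩, hm, rfl⟩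
      · rintro ⟨⟨w, hw⟩, hm, rfl⟩; exact ⟨hw, hm⟩
    have hcont : Continuous (fun ε : ℝ => v + ε • d) := by fun_prop
    have h5 : IsOpen {ε : ℝ | (∃ hu : v + ε • d ≠ 0, Projectivization.mk ℝ (v + ε • d) hu ∈ O) ∧
        0 < forms h k (v + ε • d)} := by
      apply IsOpen.inter (h1.preimage hcont)
      have := (forms h k).continuous_of_finiteDimensional
      exact isOpen_lt continuous_const (this.comp hcont)
    have h6 : (0 : ℝ) ∈ {ε : ℝ | (∃ hu : v + ε • d ≠ 0,
        Projectivization.mk ℝ (v + ε • d) hu ∈ O) ∧ 0 < forms h k (v + ε • d)} := by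
      have e : v + (0 : ℝ) • d = v := by simp
      refine ⟨⟨by rw [e]; exact hv, ?_⟩, by rw [e]; exact H k hk⟩
      have : Projectivization.mk ℝ (v + (0 : ℝ) • d) (by rw [e]; exact hv) =
          Projectivization.mk ℝ v hv := by congr 1
      rw [this]; exact hvO
    obtain ⟨δ, hδ, hball⟩ := Metric.isOpen_iff.mp h5 0 h6
    have h7 : δ / 2 ∈ Metric.ball (0 : ℝ) δ := by
      rw [Metric.mem_ball, dist_zero_right, Real.norm_eq_abs, abs_of_pos (by linarith)]
      linarith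
    obtain ⟨⟨hu, hmO⟩, hkpos⟩ := hball h7
    have hG : Projectivization.mk ℝ (v + (δ / 2) • d) hu ∈ Gr := (mk_mem_Gr hu).mpr (hpl _)
    have hP := (hsub ⟨hmO, hG⟩).1
    rw [mk_mem_Pent] at hP
    have := hP k j
    have h8 : forms h j (v + (δ / 2) • d) < 0 := by
      rw [map_add, map_smul, hj, zero_add, smul_eq_mul]
      nlinarith
    nlinarith

/-- representative of a point of `Oset ∩ Cset` -/
lemma exists_rep {g : V →ₗ[ℝ] ℝ} {j} {x : P5} (hx : x ∈ Oset h g j ∩ Cset h j) :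
    ∃ (v : V) (hv : v ≠ 0), Projectivization.mk ℝ v hv = x ∧ plu v = 0 ∧
      forms h (idx j) v = 0 ∧ (∀ a, a ≠ idx j → 0 < forms h a v) ∧
      (j = Sum.inr 0 → g v ≠ 0) := by
  obtain ⟨⟨hO, hg⟩, hG, hC⟩ := hx
  obtain ⟨k, hk⟩ : ∃ k : Fin 6 ⊕ Fin 1, k ≠ idx j := by
    rcases idx j with i | i
    · exact ⟨Sum.inr 0, by simp⟩
    · exact ⟨Sum.inl 0, by simp⟩
  set c := forms h k x.rep with hc
  have hc0 : c ≠ 0 := by
    have := hO k k hk hk
    intro h0
    rw [← hc, h0] at this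
    simp at this
  have hv : c • x.rep ≠ 0 := smul_ne_zero hc0 x.rep_nonzero
  refine ⟨c • x.rep, hv, ?_, ?_, ?_, ?_, ?_⟩
  · conv_rhs => rw [← x.mk_rep]
    rw [Projectivization.mk_eq_mk_iff']
    exact ⟨c, rfl⟩
  · rw [plu_smul]
    have : plu x.rep = 0 := hG
    rw [this, mul_zero]
  · rw [map_smul]
    have : forms h (idx j) x.rep = 0 := hC
    rw [this, smul_zero]
  · intro a ha
    rw [map_smul, smul_eq_mul]
    exact hO k a hk ha
  · intro hj h0
    have := hg hj
    rw [map_smul, smul_eq_mul] at h0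
    have h1 : g x.rep = 0 := (mul_eq_zero.mp h0).resolve_left hc0
    rw [h1] at this
    simp at this

lemma Oset_subset_bdry (j) : Oset h (auxForm h) j ∩ Cset h j ⊆ bdry (Pent h ∩ Gr) := by
  intro x hx
  obtain ⟨v, hv, rfl, hp, h0, hpos, hg⟩ := exists_rep hx
  have hp' : v 0 * v 5 - v 1 * v 4 + v 3 * v 2 = 0 := hp
  rcases j with i | i
  · fin_cases i
    · -- p12
      have h4 : 0 < v 4 := hpos (Sum.inl 4) (by decide)
      refine mem_bdry (d := ![-(v 4), -(v 5), 0, 0, 0, 0]) hv ?_ (Sum.inl 0) h0 ?_ hpos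
      · intro ε
        simp only [plu, Pi.add_apply, Pi.smul_apply, smul_eq_mul]
        simp
        linear_combination hp'
      · rw [forms_inl]; simpa using h4
    · -- p14
      have h4 : 0 < v 4 := hpos (Sum.inl 4) (by decide)
      refine mem_bdry (d := ![0, -(v 2), 0, -(v 4), 0, 0]) hv ?_ (Sum.inl 3) h0 ?_ hpos
      · intro ε
        simp only [plu, Pi.add_apply, Pi.smul_apply, smul_eq_mul]
        simp
        linear_combination hp'
      · rw [forms_inl]; simpa using h4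
    · -- p23
      have h4 : 0 < v 4 := hpos (Sum.inl 4) (by decide)
      refine mem_bdry (d := ![0, -(v 3), -(v 4), 0, 0, 0]) hv ?_ (Sum.inl 2) h0 ?_ hpos
      · intro ε
        simp only [plu, Pi.add_apply, Pi.smul_apply, smul_eq_mul]
        simp
        linear_combination hp'
      · rw [forms_inl]; simpa using h4
    · -- p34
      have h4 : 0 < v 4 := hpos (Sum.inl 4) (by decide)
      refine mem_bdry (d := ![0, -(v 0), 0, 0, 0, -(v 4)]) hv ?_ (Sum.inl 5) h0 ?_ hpos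
      · intro ε
        simp only [plu, Pi.add_apply, Pi.smul_apply, smul_eq_mul]
        simp
        linear_combination hp'
      · rw [forms_inl]; simpa using h4
  · have hi : i = 0 := Subsingleton.elim _ _
    subst hi
    have hg' := hg rfl
    set s := auxForm h v with hs
    refine mem_bdry (d := ![-(s * v 4), -(s * v 5), 0, 0, 0, 0]) hv ?_ (Sum.inr 0) h0 ?_ hpos
    · intro ε
      simp only [plu, Pi.add_apply, Pi.smul_apply, smul_eq_mul]
      simp
      linear_combination hp'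
    · rw [forms_inr, apply_eq_coeffs, Fin.sum_univ_six]
      simp
      have : s = coeffs h 0 * v 4 + coeffs h 1 * v 5 := auxForm_apply v
      have h2 : 0 < s * s := mul_self_pos.mpr hg'
      have h3 : coeffs h 1 * (s * v 5) + coeffs h 0 * (s * v 4) = s * s := by
        linear_combination (-s) * this
      linarith

/-- hypotheses on `h` -/
structure Good (h : V →ₗ[ℝ] ℝ) : Prop where
  coeff_ne : ∀ i, coeffs h i ≠ 0
  pf_ne : pf (coeffs h) ≠ 0
  wit : ∃ w, IsWitness h w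
  /-- `S` is the closure of its interior -/
  reg : ∀ v : V, v ≠ 0 → plu v = 0 → (∀ a, 0 ≤ forms h a v) →
    v ∈ closure {z | plu z = 0 ∧ ∀ a, 0 < forms h a z}
  /-- each facet is nonempty -/
  facet : ∀ j : Fin 4 ⊕ Fin 1, ∃ v : V, plu v = 0 ∧ forms h (idx j) v = 0 ∧
    (∀ a, a ≠ idx j → 0 < forms h a v) ∧ (j = Sum.inr 0 → auxForm h v ≠ 0)

lemma Good.nonempty (G : Good h) (j) : (Oset h (auxForm h) j ∩ Cset h j).Nonempty := by
  obtain ⟨v, hp, h0, hpos, hg⟩ := G.facet j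
  have hv : v ≠ 0 := by
    rintro rfl
    obtain ⟨k, hk⟩ : ∃ k : Fin 6 ⊕ Fin 1, k ≠ idx j := by
      rcases idx j with i | i
      · exact ⟨Sum.inr 0, by simp⟩
      · exact ⟨Sum.inl 0, by simp⟩
    have := hpos k hk
    rw [map_zero] at this
    exact lt_irrefl _ this
  refine ⟨Projectivization.mk ℝ v hv, ⟨?_, ?_⟩, (mk_mem_Gr hv).mpr hp,
    (mk_mem_hyperplane hv _).mpr h0⟩
  · intro a b ha hb
    exact (mul_rep_pos hv _ _).mpr (mul_pos (hpos a ha) (hpos b hb))
  · intro hj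
    exact (mul_rep_pos hv _ _).mpr (mul_self_pos.mpr (hg hj))

lemma Oset_not_mem {g : V →ₗ[ℝ] ℝ} {i j} {x : P5} (hx : x ∈ Oset h g i) (hij : i ≠ j) :
    x ∉ Cset h j := by
  rintro ⟨-, hC⟩
  have hne : idx j ≠ idx i := fun he => hij (idx_injective he).symm
  have h1 := hx.1 (idx j) (idx j) hne hne
  have h2 : forms h (idx j) x.rep = 0 := hC
  rw [h2] at h1
  simp at h1

lemma Good.irred (G : Good h) (j) : IsZariskiIrreducible (Cset h j) :=
  (paramC G.pf_ne j).irreducible ((G.nonempty j).mono Set.inter_subset_right)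
    (isZariskiClosed_Cset j)

lemma bdry_subset : bdry (Pent h ∩ Gr) ⊆ ⋃ j, Cset h j := by
  rintro x ⟨⟨hP, hG⟩, hni⟩
  by_contra hcon
  rw [Set.mem_iUnion] at hcon
  push Not at hcon
  have hP' : ∀ i j : Fin 6, 0 ≤ x.rep i * x.rep j := fun i j => hP (Sum.inl i) (Sum.inl j)
  obtain ⟨v, hv, rfl, h1, hnn⟩ := exists_normalized hP'
  rw [mk_mem_Gr] at hG
  rw [mk_mem_Pent] at hP
  have hnn' := forms_nonneg (by rw [h1]; norm_num) hP
  have hpos : ∀ j, 0 < forms h (idx j) v := by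
    intro j
    refine lt_of_le_of_ne (hnn' _) (fun h0 => hcon j ⟨(mk_mem_Gr hv).mpr hG, ?_⟩)
    exact (mk_mem_hyperplane hv _).mpr h0.symm
  apply hni
  apply mem_interiorIn hv hG
  have p0 : 0 < v 0 := hpos (Sum.inl 0)
  have p3 : 0 < v 3 := hpos (Sum.inl 1)
  have p2 : 0 < v 2 := hpos (Sum.inl 2)
  have p5 : 0 < v 5 := hpos (Sum.inl 3)
  have ph : 0 < h v := hpos (Sum.inr 0)
  have hG' : v 0 * v 5 - v 1 * v 4 + v 3 * v 2 = 0 := hG
  have hprod : 0 < v 1 * v 4 := by
    have := mul_pos p0 p5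
    have := mul_pos p3 p2
    linarith
  have p1 : 0 < v 1 := by
    rcases (hnn' (Sum.inl 1)).lt_or_eq with h' | h'
    · exact h'
    · exfalso; rw [forms_inl] at h'; rw [← h'] at hprod; simp at hprod
  have p4 : 0 < v 4 := by
    rcases (hnn' (Sum.inl 4)).lt_or_eq with h' | h'
    · exact h'
    · exfalso; rw [forms_inl] at h'; rw [← h'] at hprod; simp at hprod
  rintro (i | i)
  · fin_cases i
    · exact p0
    · exact p1
    · exact p2
    · exact p3
    · exact p4
    · exact p5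
  · exact ph

lemma Good.zariski (G : Good h) : zariskiClosure (bdry (Pent h ∩ Gr)) = ⋃ j, Cset h j := by
  apply Set.Subset.antisymm
  · exact (isZariskiClosed_iUnion isZariskiClosed_Cset).zariskiClosure_subset bdry_subset
  · apply Set.iUnion_subset
    intro j
    apply Set.subset_sInter
    rintro Z ⟨hZ, hsub⟩
    exact (paramC G.pf_ne j).dense (isOpen_Oset (auxForm h) j) (G.nonempty j) hZ
      ((Oset_subset_bdry j).trans hsub)

lemma Good.facets (G : Good h) : facets (Pent h ∩ Gr) =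
    Set.range (fun j => closureIn (Cset h j) (interiorIn (Cset h j) (Cset h j ∩ (Pent h ∩ Gr)))) := by
  have h1 := irredComponent_iUnion (C := Cset h) G.irred (by
    intro i j hij
    by_contra hne
    obtain ⟨x, hxO, hxC⟩ := G.nonempty i
    exact Oset_not_mem hxO hne (hij hxC))
  ext F
  constructor
  · rintro ⟨C, hC, rfl⟩
    rw [G.zariski] at hC
    have : C ∈ Set.range (Cset h) := by rw [← h1]; exact hC
    obtain ⟨j, rfl⟩ := this
    exact ⟨j, rfl⟩
  · rintro ⟨j, rfl⟩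
    refine ⟨Cset h j, ?_, rfl⟩
    rw [G.zariski]
    have : Cset h j ∈ {D | IsIrredComponent D (⋃ i, Cset h i)} := by rw [h1]; exact ⟨j, rfl⟩
    exact this

lemma Oset_subset_facet (j) : Oset h (auxForm h) j ∩ Cset h j ⊆
    closureIn (Cset h j) (interiorIn (Cset h j) (Cset h j ∩ (Pent h ∩ Gr))) := by
  intro x hx
  refine ⟨subset_closure ⟨hx.2, Oset h (auxForm h) j, isOpen_Oset _ _, hx.1, ?_⟩, hx.2⟩
  intro y hy
  exact ⟨hy.2, (Oset_subset_bdry j hy).1⟩

lemma closure_interior (G : Good h) :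
    closureIn Gr (interiorIn Gr (Pent h ∩ Gr)) = Pent h ∩ Gr := by
  apply Set.Subset.antisymm
  · rintro x ⟨hx, hG⟩
    refine ⟨?_, hG⟩
    have h1 : interiorIn Gr (Pent h ∩ Gr) ⊆ Pent h := by
      rintro y ⟨hy, O, -, hyO, hsub⟩
      exact (hsub ⟨hyO, hy⟩).1
    exact closure_minimal h1 isClosed_Pent hx
  · rintro x ⟨hP, hG⟩
    refine ⟨?_, hG⟩
    have hP' : ∀ i j : Fin 6, 0 ≤ x.rep i * x.rep j := fun i j => hP (Sum.inl i) (Sum.inl j)
    obtain ⟨v, hv, rfl, h1, hnn⟩ := exists_normalized hP'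
    rw [mk_mem_Gr] at hG
    rw [mk_mem_Pent] at hP
    have hnn' := forms_nonneg (by rw [h1]; norm_num) hP
    have hcl := G.reg v hv hG hnn'
    rw [mem_closure_iff]
    intro O hO hxO
    have h1 : IsOpen {u : V | ∃ hu : u ≠ 0, Projectivization.mk ℝ u hu ∈ O} := by
      have h2 : IsOpen (proj ⁻¹' O) := (isOpen_iff_proj O).mp hO
      have h3 : IsOpen ({v : V | v ≠ 0}) := isOpen_ne
      have h4 := (h3.isOpenEmbedding_subtypeVal).isOpenMap _ h2
      convert h4 using 1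
      ext v
      constructor
      · rintro ⟨hv, hm⟩; exact ⟨⟨v, hv⟩, hm, rfl⟩
      · rintro ⟨⟨w, hw⟩, hm, rfl⟩; exact ⟨hw, hm⟩
    obtain ⟨z, ⟨hz, hzO⟩, hzp, hzpos⟩ := mem_closure_iff.mp hcl _ h1 ⟨hv, hxO⟩
    exact ⟨_, hzO, mem_interiorIn hz hzp hzpos⟩

theorem Good.isPositivePolytope (G : Good h) : IsPositivePolytope 1 (Pent h ∩ Gr) := by
  obtain ⟨w, hw⟩ := G.wit
  refine ⟨fun _ => h, lam0, Pent h, isPolytope hw, Pent_subset, hyperplane_injective hw,
    facetHyperplanes_eq hw, isSimple G.coeff_ne, rfl, closure_interior G, ?_⟩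
  refine ⟨fun j => closureIn (Cset h j) (interiorIn (Cset h j) (Cset h j ∩ (Pent h ∩ Gr))),
    ?_, G.facets.symm, ?_⟩
  · intro i j hij
    by_contra hne
    obtain ⟨x, hx⟩ := G.nonempty i
    have h1 := Oset_subset_facet i hx
    have hij' : closureIn (Cset h i) (interiorIn (Cset h i) (Cset h i ∩ (Pent h ∩ Gr))) =
      closureIn (Cset h j) (interiorIn (Cset h j) (Cset h j ∩ (Pent h ∩ Gr))) := hij
    rw [hij'] at h1
    exact Oset_not_mem hx.1 hne h1.2
  · intro j
    refine ⟨?_, ?_⟩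
    · obtain ⟨x, hx⟩ := G.nonempty j
      exact ⟨x, Oset_subset_facet j hx⟩
    · rintro x ⟨-, hx⟩
      rw [facetForms_eq]
      exact hx.2

end Pool.Agent.MP_7a7825_ag
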