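import Mathlib

/-!
Definitions for the problem on positive polytopes in the Grassmannian Gr(2,4).
Coordinates on R^6 are ordered as (p12, p13, p23, p14, p24, p34), indexed by 0,...,5.
-/

open LinearAlgebra.Projectivization

namespace Pool.Agent.MP_7a7825_ag

/-- `R^6` with Pluecker coordinates `(p12, p13, p23, p14, p24, p34)`. -/
abbrev V : Type := Fin 6 → ℝ

/-- The real projective space `P^5(R)`. -/
abbrev P5 : Type := ℙ ℝ V

/-- The Euclidean topology of `P^5(R)`: the quotient topology from `R^6` minus the origin. -/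
instance : TopologicalSpace P5 :=
  inferInstanceAs (TopologicalSpace (Quotient (projectivizationSetoid ℝ V)))

/-- The Grassmannian `Gr(2,4)(R)`: the Pluecker quadric `p12 p34 - p13 p24 + p14 p23 = 0`. -/
def Gr : Set P5 := {x | x.rep 0 * x.rep 5 - x.rep 1 * x.rep 4 + x.rep 3 * x.rep 2 = 0}

/-- The hyperplane `l = 0` of `P^5(R)`. -/
def hyperplane (l : V →ₗ[ℝ] ℝ) : Set P5 := {x | l x.rep = 0}

/-- The `i`-th Pluecker coordinate as a linear form. -/
def coord (i : Fin 6) : V →ₗ[ℝ] ℝ := LinearMap.proj i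

/-- The positive simplex `P^5_{>=0}`, with the sign convention of the problem:
`p_i >= 0` for all `i` means `p_i p_j >= 0` for all `i, j`. -/
def P5nonneg : Set P5 := {x | ∀ i j : Fin 6, 0 ≤ x.rep i * x.rep j}

/-- The part of `R^6` in the affine hyperplane `lam = 1` (the affine chart `lam ≠ 0`)
that represents the points of `P`. -/
def chartPart (lam : V →ₗ[ℝ] ℝ) (P : Set P5) : Set V :=
  {v | lam v = 1 ∧ ∃ hv : v ≠ 0, Projectivization.mk ℝ v hv ∈ P}

/-- `P` is a convex full-dimensional polytope in the affine chart `lam ≠ 0`: it lies in the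
chart, and there it is a bounded intersection of finitely many closed half-spaces that is
not contained in a hyperplane. -/
structure IsPolytopeInChart (lam : V →ₗ[ℝ] ℝ) (P : Set P5) : Prop where
  subset_chart : ∀ x ∈ P, lam x.rep ≠ 0
  halfspaces : ∃ s : Finset (V →ₗ[ℝ] ℝ), chartPart lam P = {v | lam v = 1 ∧ ∀ l ∈ s, 0 ≤ l v}
  bounded : Bornology.IsBounded (chartPart lam P)
  fullDim : Submodule.span ℝ (chartPart lam P) = ⊤

/-- `l = 0` is a facet hyperplane of the polytope `P` (of the chart `lam ≠ 0`): `l` is nonzero,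
nonnegative on `P` (in the chart) and `P ∩ {l = 0}` spans the hyperplane `l = 0`. -/
def IsFacetForm (lam : V →ₗ[ℝ] ℝ) (P : Set P5) (l : V →ₗ[ℝ] ℝ) : Prop :=
  l ≠ 0 ∧ (∀ v ∈ chartPart lam P, 0 ≤ l v) ∧
    Submodule.span ℝ (chartPart lam P ∩ {v | l v = 0}) = LinearMap.ker l

/-- The set of facet hyperplanes of `P`. -/
def facetHyperplanes (lam : V →ₗ[ℝ] ℝ) (P : Set P5) : Set (Set P5) :=
  {H | ∃ l, IsFacetForm lam P l ∧ H = hyperplane l}

/-- A finite family of hyperplanes `F j = 0` in `P^5` is a simple arrangement if any `k ≤ 6`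
of the forms are linearly independent (any `k ≤ 5` of the hyperplanes meet in codimension `k`
and no six have a common point). -/
def IsSimpleArrangement {ι : Type} (F : ι → V →ₗ[ℝ] ℝ) : Prop :=
  ∀ s : Finset ι, s.card ≤ 6 → LinearIndependent ℝ (fun j : s => F j)

/-- Zariski closed subsets of `P^5(R)`: common zero loci of homogeneous polynomials. -/
def IsZariskiClosed (Z : Set P5) : Prop :=
  ∃ I : Set (MvPolynomial (Fin 6) ℝ), (∀ f ∈ I, ∃ n, f.IsHomogeneous n) ∧
    Z = {x | ∀ f ∈ I, MvPolynomial.eval x.rep f = 0}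

/-- The Zariski closure of a subset of `P^5(R)`. -/
def zariskiClosure (A : Set P5) : Set P5 := ⋂₀ {Z | IsZariskiClosed Z ∧ A ⊆ Z}

/-- Irreducible Zariski closed subsets of `P^5(R)`. -/
def IsZariskiIrreducible (C : Set P5) : Prop :=
  IsZariskiClosed C ∧ C.Nonempty ∧
    ∀ Z₁ Z₂ : Set P5, IsZariskiClosed Z₁ → IsZariskiClosed Z₂ → C ⊆ Z₁ ∪ Z₂ → C ⊆ Z₁ ∨ C ⊆ Z₂

/-- `C` is an irreducible component of the Zariski closed set `Z`. -/
def IsIrredComponent (C Z : Set P5) : Prop :=
  IsZariskiIrreducible C ∧ C ⊆ Z ∧ ∀ C', IsZariskiIrreducible C' → C' ⊆ Z → C ⊆ C' → C' = C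

/-- The (Euclidean) interior of `A` relative to `X`. -/
def interiorIn (X A : Set P5) : Set P5 := {x | x ∈ X ∧ ∃ O, IsOpen O ∧ x ∈ O ∧ O ∩ X ⊆ A}

/-- The (Euclidean) closure of `A` in `X`. -/
def closureIn (X A : Set P5) : Set P5 := closure A ∩ X

/-- The boundary of `S` in `Gr(2,4)(R)`: `S` minus its interior. -/
def bdry (S : Set P5) : Set P5 := S \ interiorIn Gr S

/-- The facets of `S`: for each irreducible component `C` of the Zariski closure of the
boundary of `S`, the closure in `C` of the interior (in `C`) of `C ∩ S`. -/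
def facets (S : Set P5) : Set (Set P5) :=
  {F | ∃ C, IsIrredComponent C (zariskiClosure (bdry S)) ∧ F = closureIn C (interiorIn C (C ∩ S))}

/-- The facet forms of `P`: the six Pluecker coordinates and `h 1, ..., h m`. -/
def polytopeForms {m : ℕ} (h : Fin m → V →ₗ[ℝ] ℝ) : Fin 6 ⊕ Fin m → V →ₗ[ℝ] ℝ :=
  Sum.elim coord h

/-- The facet forms of `S`: `p12, p14, p23, p34` and `h 1, ..., h m`. -/
def facetForms {m : ℕ} (h : Fin m → V →ₗ[ℝ] ℝ) : Fin 4 ⊕ Fin m → V →ₗ[ℝ] ℝ :=
  Sum.elim ![coord 0, coord 3, coord 2, coord 5] h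

/-- `S` is a positive polytope in `Gr(2,4)` with `m + 4` facets. -/
def IsPositivePolytope (m : ℕ) (S : Set P5) : Prop :=
  ∃ (h : Fin m → V →ₗ[ℝ] ℝ) (lam : V →ₗ[ℝ] ℝ) (P : Set P5),
    -- `P` is a polytope contained in the positive simplex
    IsPolytopeInChart lam P ∧ P ⊆ P5nonneg ∧
    -- it has exactly `m + 6` facets, on the Pluecker hyperplanes and on the `h i = 0`
    Function.Injective (fun j => hyperplane (polytopeForms h j)) ∧
    facetHyperplanes lam P = Set.range (fun j => hyperplane (polytopeForms h j)) ∧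
    -- it is simple
    IsSimpleArrangement (polytopeForms h) ∧
    -- `S` is the intersection with the Grassmannian, equal to the closure of its interior
    S = P ∩ Gr ∧ closureIn Gr (interiorIn Gr S) = S ∧
    -- `S` has exactly `m + 4` facets, on `p12, p14, p23, p34 = 0` and on the `h i = 0`
    ∃ e : Fin 4 ⊕ Fin m → Set P5, Function.Injective e ∧ Set.range e = facets S ∧
      ∀ j, (e j).Nonempty ∧ e j ⊆ hyperplane (facetForms h j)

end Pool.Agent.MP_7a7825_ag
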