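import Pool.Agent.MP_7a7825_ag.Regular

open LinearAlgebra.Projectivization Filter Topology

namespace Pool.Agent.MP_7a7825_ag

/-- `p12 + p34 - 2 (p13 + p23 + p14 + p24)` -/
def hA : V →ₗ[ℝ] ℝ := coord 0 + coord 5 - (2 : ℝ) • (coord 1 + coord 2 + coord 3 + coord 4)

/-- `p12 + p23 + p14 + p34 - 2 (p13 + p24)` -/
def hB : V →ₗ[ℝ] ℝ := coord 0 + coord 2 + coord 3 + coord 5 - (2 : ℝ) • (coord 1 + coord 4)

lemma hA_apply (v : V) : hA v = v 0 + v 5 - 2 * (v 1 + v 2 + v 3 + v 4) := rfl

lemma hB_apply (v : V) : hB v = v 0 + v 2 + v 3 + v 5 - 2 * (v 1 + v 4) := rfl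

lemma coeffs_hA : coeffs hA = ![1, -2, -2, -2, -2, 1] := by
  funext i
  fin_cases i <;> simp [coeffs, hA_apply]

lemma coeffs_hB : coeffs hB = ![1, -2, 1, 1, -2, 1] := by
  funext i
  fin_cases i <;> simp [coeffs, hB_apply]

lemma good_hA : Good hA where
  coeff_ne := by
    intro i
    rw [coeffs_hA]
    fin_cases i <;> simp
  pf_ne := by
    rw [coeffs_hA]; simp [pf]
  wit := by
    refine ⟨Sum.elim ![![0, 1, 1, 1, 1, 9], ![9, 0, 1, 1, 1, 1], ![9, 1, 0, 1, 1, 1],
      ![9, 1, 1, 0, 1, 1], ![9, 1, 1, 1, 0, 1], ![9, 1, 1, 1, 1, 0]]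
      (fun _ => ![4, 1, 1, 1, 1, 4]), ?_⟩
    rintro (j | j)
    · refine ⟨by fin_cases j <;> simp [forms_inl], ?_⟩
      rintro (k | k) hk
      · rw [forms_inl]
        fin_cases j <;> fin_cases k <;> first | (exfalso; exact hk rfl) | simp
      · rw [forms_inr, hA_apply]
        fin_cases j <;> simp <;> norm_num
    · refine ⟨by rw [forms_inr, hA_apply]; simp; norm_num, ?_⟩
      rintro (k | k) hk
      · rw [forms_inl]
        fin_cases k <;> simp
      · exact absurd (by rw [Subsingleton.elim k j]) hk
  reg := by
    refine reg_of_torus (fun v l => ![l ^ 2 * v 0, l * v 1, l * v 2, l * v 3, l * v 4, v 5])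
      (fun v => v 0) (fun v => 2 * (v 1 + v 2 + v 3 + v 4)) (fun v => v 5) ?_ ?_ ?_ ?_ ?_ ?_ ?_
    · intro v; funext i; fin_cases i <;> simp
    · intro v
      apply continuous_pi
      intro i
      fin_cases i <;> simp <;> fun_prop
    · intro v l hp
      have hp' : v 0 * v 5 - v 1 * v 4 + v 3 * v 2 = 0 := hp
      simp [plu]
      linear_combination l ^ 2 * hp'
    · intro v l hl hnn i
      have := hnn 0
      have := hnn 1
      have := hnn 2
      have := hnn 3
      have := hnn 4
      have := hnn 5
      fin_cases i <;> simp <;> positivity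
    · intro v l
      rw [hA_apply]; simp; ring
    · intro v hnn; exact hnn 0
    · rintro v hv hnn hh ⟨h0, h1⟩
      apply hv
      rw [hA_apply] at hh
      have e1 := hnn 1
      have e2 := hnn 2
      have e3 := hnn 3
      have e4 := hnn 4
      funext i
      fin_cases i <;> simp only [Fin.zero_eta, Fin.mk_one, Fin.reduceFinMk, Pi.zero_apply] <;>
        linarith
  facet := by
    rintro (j | j)
    · fin_cases j
      · refine ⟨![0, 1, 1, 1, 1, 9], by simp [plu], by simp [idx, forms_inl], ?_, by simp⟩
        rintro (k | k) hk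
        · rw [forms_inl]
          fin_cases k <;> first | (exfalso; exact hk rfl) | simp
        · rw [forms_inr, hA_apply]; simp; norm_num
      · refine ⟨![20, 1, 1, 0, 1, 1 / 20], by simp [plu], by simp [idx, forms_inl], ?_, by simp⟩
        rintro (k | k) hk
        · rw [forms_inl]
          fin_cases k <;> first | (exfalso; exact hk rfl) | simp
        · rw [forms_inr, hA_apply]; simp; norm_num
      · refine ⟨![20, 1, 0, 1, 1, 1 / 20], by simp [plu], by simp [idx, forms_inl], ?_, by simp⟩
        rintro (k | k) hk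
        · rw [forms_inl]
          fin_cases k <;> first | (exfalso; exact hk rfl) | simp
        · rw [forms_inr, hA_apply]; simp; norm_num
      · refine ⟨![9, 1, 1, 1, 1, 0], by simp [plu], by simp [idx, forms_inl], ?_, by simp⟩
        rintro (k | k) hk
        · rw [forms_inl]
          fin_cases k <;> first | (exfalso; exact hk rfl) | simp
        · rw [forms_inr, hA_apply]; simp; norm_num
    · refine ⟨![120, 31, 1, 1, 31, 8], by simp [plu]; norm_num,
        by simp [idx, forms_inr, hA_apply]; norm_num, ?_, ?_⟩
      · rintro (k | k) hk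
        · rw [forms_inl]
          fin_cases k <;> simp
        · exact absurd (by rw [Subsingleton.elim k 0]; rfl) hk
      · intro _
        rw [auxForm_apply, coeffs_hA]
        simp; norm_num

lemma good_hB : Good hB where
  coeff_ne := by
    intro i
    rw [coeffs_hB]
    fin_cases i <;> simp
  pf_ne := by
    rw [coeffs_hB]; simp [pf]; norm_num
  wit := by
    refine ⟨Sum.elim ![![0, 1, 9, 9, 1, 9], ![9, 0, 9, 9, 1, 9], ![9, 1, 0, 9, 1, 9],
      ![9, 1, 9, 0, 1, 9], ![9, 1, 9, 9, 0, 9], ![9, 1, 9, 9, 1, 0]]
      (fun _ => ![1, 1, 1, 1, 1, 1]), ?_⟩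
    rintro (j | j)
    · refine ⟨by fin_cases j <;> simp [forms_inl], ?_⟩
      rintro (k | k) hk
      · rw [forms_inl]
        fin_cases j <;> fin_cases k <;> first | (exfalso; exact hk rfl) | simp
      · rw [forms_inr, hB_apply]
        fin_cases j <;> simp <;> norm_num
    · refine ⟨by rw [forms_inr, hB_apply]; simp; norm_num, ?_⟩
      rintro (k | k) hk
      · rw [forms_inl]
        fin_cases k <;> simp
      · exact absurd (by rw [Subsingleton.elim k j]) hk
  reg := by
    refine reg_of_torus (fun v l => ![l ^ 2 * v 0, l * v 1, v 2, l ^ 2 * v 3, l * v 4, v 5])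
      (fun v => v 0 + v 3) (fun v => 2 * (v 1 + v 4)) (fun v => v 2 + v 5) ?_ ?_ ?_ ?_ ?_ ?_ ?_
    · intro v; funext i; fin_cases i <;> simp
    · intro v
      apply continuous_pi
      intro i
      fin_cases i <;> simp <;> fun_prop
    · intro v l hp
      have hp' : v 0 * v 5 - v 1 * v 4 + v 3 * v 2 = 0 := hp
      simp [plu]
      linear_combination l ^ 2 * hp'
    · intro v l hl hnn i
      have := hnn 0
      have := hnn 1
      have := hnn 2
      have := hnn 3
      have := hnn 4
      have := hnn 5
      fin_cases i <;> simp <;> positivity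
    · intro v l
      rw [hB_apply]; simp; ring
    · intro v hnn; exact add_nonneg (hnn 0) (hnn 3)
    · rintro v hv hnn hh ⟨h0, h1⟩
      apply hv
      rw [hB_apply] at hh
      have e0 := hnn 0
      have e1 := hnn 1
      have e2 := hnn 2
      have e3 := hnn 3
      have e4 := hnn 4
      have e5 := hnn 5
      funext i
      fin_cases i <;> simp only [Fin.zero_eta, Fin.mk_one, Fin.reduceFinMk, Pi.zero_apply] <;>
        linarith
  facet := by
    rintro (j | j)
    · fin_cases j
      · refine ⟨![0, 1, 1, 1, 1, 3], by simp [plu], by simp [idx, forms_inl], ?_, by simp⟩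
        rintro (k | k) hk
        · rw [forms_inl]
          fin_cases k <;> first | (exfalso; exact hk rfl) | simp
        · rw [forms_inr, hB_apply]; simp; norm_num
      · refine ⟨![1, 1, 3, 0, 1, 1], by simp [plu], by simp [idx, forms_inl], ?_, by simp⟩
        rintro (k | k) hk
        · rw [forms_inl]
          fin_cases k <;> first | (exfalso; exact hk rfl) | simp
        · rw [forms_inr, hB_apply]; simp; norm_num
      · refine ⟨![1, 1, 0, 3, 1, 1], by simp [plu], by simp [idx, forms_inl], ?_, by simp⟩
        rintro (k | k) hk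
        · rw [forms_inl]
          fin_cases k <;> first | (exfalso; exact hk rfl) | simp
        · rw [forms_inr, hB_apply]; simp; norm_num
      · refine ⟨![3, 1, 1, 1, 1, 0], by simp [plu], by simp [idx, forms_inl], ?_, by simp⟩
        rintro (k | k) hk
        · rw [forms_inl]
          fin_cases k <;> first | (exfalso; exact hk rfl) | simp
        · rw [forms_inr, hB_apply]; simp; norm_num
    · refine ⟨![20, 7, 3, 3, 7, 2], by simp [plu]; norm_num,
        by simp [idx, forms_inr, hB_apply]; norm_num, ?_, ?_⟩
      · rintro (k | k) hk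
        · rw [forms_inl]
          fin_cases k <;> simp
        · exact absurd (by rw [Subsingleton.elim k 0]; rfl) hk
      · intro _
        rw [auxForm_apply, coeffs_hB]
        simp; norm_num

end Pool.Agent.MP_7a7825_ag
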