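import Pool.Agent.MP_7a7825_ag.Polytope

open LinearAlgebra.Projectivization

namespace Pool.Agent.MP_7a7825_ag

/-- wedge product of two vectors in a rank four free module -/
def wedge {R : Type} [CommRing R] (u w : Fin 4 → R) : Fin 6 → R :=
  ![u 0 * w 1 - u 1 * w 0, u 0 * w 2 - u 2 * w 0, u 1 * w 2 - u 2 * w 1,
    u 0 * w 3 - u 3 * w 0, u 1 * w 3 - u 3 * w 1, u 2 * w 3 - u 3 * w 2]

/-- the two-form with coefficients `H` -/
def om {R : Type} [CommRing R] (H : Fin 6 → R) (u w : Fin 4 → R) : R :=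
  H 0 * (u 0 * w 1 - u 1 * w 0) + H 1 * (u 0 * w 2 - u 2 * w 0) + H 2 * (u 1 * w 2 - u 2 * w 1) +
    H 3 * (u 0 * w 3 - u 3 * w 0) + H 4 * (u 1 * w 3 - u 3 * w 1) + H 5 * (u 2 * w 3 - u 3 * w 2)

/-- the second vector of the isotropic plane -/
def iso {R : Type} [CommRing R] (H : Fin 6 → R) (u w e : Fin 4 → R) : Fin 4 → R :=
  fun k => om H u e * w k - om H u w * e k

lemma plu_wedge (u w : Fin 4 → ℝ) : plu (wedge u w) = 0 := by
  simp [plu, wedge]; ring

lemma exists_wedge {v : V} (hv : v ≠ 0) (hp : plu v = 0) : ∃ u w : Fin 4 → ℝ, wedge u w = v := by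
  have hp' : v 0 * v 5 - v 1 * v 4 + v 3 * v 2 = 0 := hp
  have hex : ∃ i, v i ≠ 0 := by
    by_contra hcon
    push Not at hcon
    exact hv (funext hcon)
  obtain ⟨i, hi⟩ := hex
  fin_cases i
  · -- p12
    have hi : v 0 ≠ 0 := hi
    refine ⟨![1, 0, -(v 2) / v 0, -(v 4) / v 0], ![0, v 0, v 1, v 3], ?_⟩
    funext k
    fin_cases k <;> simp [wedge] <;> field_simp <;> linarith
  · -- p13
    have hi : v 1 ≠ 0 := hi
    refine ⟨![1, v 2 / v 1, 0, -(v 5) / v 1], ![0, v 0, v 1, v 3], ?_⟩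
    funext k
    fin_cases k <;> simp [wedge] <;> field_simp <;> linarith
  · -- p23
    have hi : v 2 ≠ 0 := hi
    refine ⟨![v 1 / v 2, 1, 0, -(v 5) / v 2], ![-(v 0), 0, v 2, v 4], ?_⟩
    funext k
    fin_cases k <;> simp [wedge] <;> field_simp <;> linarith
  · -- p14
    have hi : v 3 ≠ 0 := hi
    refine ⟨![1, v 4 / v 3, v 5 / v 3, 0], ![0, v 0, v 1, v 3], ?_⟩
    funext k
    fin_cases k <;> simp [wedge] <;> field_simp <;> linarith
  · -- p24
    have hi : v 4 ≠ 0 := hi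
    refine ⟨![v 3 / v 4, 1, v 5 / v 4, 0], ![-(v 0), 0, v 2, v 4], ?_⟩
    funext k
    fin_cases k <;> simp [wedge] <;> field_simp <;> linarith
  · -- p34
    have hi : v 5 ≠ 0 := hi
    refine ⟨![v 3 / v 5, v 4 / v 5, 1, 0], ![-(v 1), -(v 2), 0, v 5], ?_⟩
    funext k
    fin_cases k <;> simp [wedge] <;> field_simp <;> linarith

/-- the coefficients of a linear form -/
def coeffs (h : V →ₗ[ℝ] ℝ) : Fin 6 → ℝ := fun i => h (Pi.single i 1)

lemma apply_eq_coeffs (h : V →ₗ[ℝ] ℝ) (v : V) : h v = ∑ i, coeffs h i * v i := by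
  conv_lhs => rw [← Finset.univ_sum_single v]
  rw [map_sum]
  apply Finset.sum_congr rfl
  intro i _
  rw [show (Pi.single i (v i) : V) = v i • Pi.single i 1 by
    rw [← Pi.single_smul, smul_eq_mul, mul_one], map_smul, smul_eq_mul, mul_comm]
  rfl

lemma h_wedge (h : V →ₗ[ℝ] ℝ) (u w : Fin 4 → ℝ) : h (wedge u w) = om (coeffs h) u w := by
  rw [apply_eq_coeffs, Fin.sum_univ_six]
  simp [wedge, om]

lemma om_iso (H : Fin 6 → ℝ) (u w e : Fin 4 → ℝ) : om H u (iso H u w e) = 0 := by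
  simp only [om, iso]; ring

/-- Pfaffian -/
def pf (H : Fin 6 → ℝ) : ℝ := H 0 * H 5 - H 1 * H 4 + H 3 * H 2

/-- the vector dual to `u` -/
def dualVec (H : Fin 6 → ℝ) (u : Fin 4 → ℝ) : Fin 4 → ℝ :=
  ![-(H 0 * u 1) - H 1 * u 2 - H 3 * u 3, H 0 * u 0 - H 2 * u 2 - H 4 * u 3,
    H 1 * u 0 + H 2 * u 1 - H 5 * u 3, H 3 * u 0 + H 4 * u 1 + H 5 * u 2]

lemma om_dualVec (H : Fin 6 → ℝ) (u : Fin 4 → ℝ) : om H u (dualVec H u) =
    dualVec H u 0 ^ 2 + dualVec H u 1 ^ 2 + dualVec H u 2 ^ 2 + dualVec H u 3 ^ 2 := by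
  simp [om, dualVec]; ring

lemma eq_zero_of_dualVec {H : Fin 6 → ℝ} (hpf : pf H ≠ 0) {u : Fin 4 → ℝ}
    (h : dualVec H u = 0) : u = 0 := by
  have e0 := congrFun h 0
  have e1 := congrFun h 1
  have e2 := congrFun h 2
  have e3 := congrFun h 3
  simp only [dualVec, Matrix.cons_val_zero, Matrix.cons_val_one, Matrix.cons_val,
    Pi.zero_apply] at e0 e1 e2 e3
  unfold pf at hpf
  funext k
  fin_cases k
  · apply (mul_eq_zero.mp (?_ : (H 0 * H 5 - H 1 * H 4 + H 3 * H 2) * u 0 = 0)).resolve_left hpf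
    linear_combination H 5 * e1 - H 4 * e2 + H 2 * e3
  · apply (mul_eq_zero.mp (?_ : (H 0 * H 5 - H 1 * H 4 + H 3 * H 2) * u 1 = 0)).resolve_left hpf
    linear_combination -H 5 * e0 + H 3 * e2 - H 1 * e3
  · apply (mul_eq_zero.mp (?_ : (H 0 * H 5 - H 1 * H 4 + H 3 * H 2) * u 2 = 0)).resolve_left hpf
    linear_combination H 4 * e0 - H 3 * e1 + H 0 * e3
  · apply (mul_eq_zero.mp (?_ : (H 0 * H 5 - H 1 * H 4 + H 3 * H 2) * u 3 = 0)).resolve_left hpf
    linear_combination -H 2 * e0 + H 1 * e1 - H 0 * e2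

/-- Parametrization of the hyperplane section of `Gr(2,4)` by a nondegenerate form. -/
noncomputable def paramH (h : V →ₗ[ℝ] ℝ) (hpf : pf (coeffs h) ≠ 0) :
    Param (Gr ∩ hyperplane h) where
  σ := Fin 3 × Fin 4
  φ := wedge (fun k => MvPolynomial.X (0, k))
    (iso (fun i => MvPolynomial.C (coeffs h i)) (fun k => MvPolynomial.X (0, k))
      (fun k => MvPolynomial.X (1, k)) (fun k => MvPolynomial.X (2, k)))
  sound := by
    intro y hv
    have key : (fun k => MvPolynomial.eval y (wedge (fun k => MvPolynomial.X (0, k))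
        (iso (fun i => MvPolynomial.C (coeffs h i)) (fun k => MvPolynomial.X (0, k))
        (fun k => MvPolynomial.X (1, k)) (fun k => MvPolynomial.X (2, k))) k)) =
        wedge (fun k => y (0, k)) (iso (coeffs h) (fun k => y (0, k)) (fun k => y (1, k))
          (fun k => y (2, k))) := by
      funext k
      fin_cases k <;> simp [wedge, iso, om]
    refine ⟨(mk_mem_Gr hv).mpr ?_, (mk_mem_hyperplane hv h).mpr ?_⟩
    · rw [key]; exact plu_wedge _ _
    · rw [key, h_wedge]; exact om_iso _ _ _ _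
  complete := by
    rintro x ⟨hx1, hx2⟩
    obtain ⟨v, hv, rfl⟩ := exists_mk x
    rw [mk_mem_Gr] at hx1
    rw [mk_mem_hyperplane] at hx2
    obtain ⟨u, w, rfl⟩ := exists_wedge hv hx1
    have hu : u ≠ 0 := by
      rintro rfl
      apply hv
      funext k
      fin_cases k <;> simp [wedge]
    have hd : dualVec (coeffs h) u ≠ 0 := fun h0 => hu (eq_zero_of_dualVec hpf h0)
    have hs : om (coeffs h) u (dualVec (coeffs h) u) ≠ 0 := by
      rw [om_dualVec]
      intro h0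
      apply hd
      funext k
      fin_cases k <;> simp only [Fin.zero_eta, Fin.mk_one, Fin.reduceFinMk, Pi.zero_apply] <;>
        nlinarith [sq_nonneg (dualVec (coeffs h) u 0), sq_nonneg (dualVec (coeffs h) u 1),
          sq_nonneg (dualVec (coeffs h) u 2), sq_nonneg (dualVec (coeffs h) u 3)]
    set s := om (coeffs h) u (dualVec (coeffs h) u) with hs'
    set e : Fin 4 → ℝ := fun k => s⁻¹ * dualVec (coeffs h) u k with he
    have home : om (coeffs h) u e = 1 := by
      have : om (coeffs h) u e = s⁻¹ * om (coeffs h) u (dualVec (coeffs h) u) := by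
        simp only [om, he]; ring
      rw [this, ← hs', inv_mul_cancel₀ hs]
    have how : om (coeffs h) u w = 0 := by rw [← h_wedge]; exact hx2
    have hiso : iso (coeffs h) u w e = w := by
      funext k
      simp [iso, home, how]
    set y : Fin 3 × Fin 4 → ℝ := fun p => (![u, w, e] p.1) p.2 with hy
    have key : (fun k => MvPolynomial.eval y (wedge (fun k => MvPolynomial.X (0, k))
        (iso (fun i => MvPolynomial.C (coeffs h i)) (fun k => MvPolynomial.X (0, k))
        (fun k => MvPolynomial.X (1, k)) (fun k => MvPolynomial.X (2, k))) k)) =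
        wedge u w := by
      have : (fun k => MvPolynomial.eval y (wedge (fun k => MvPolynomial.X (0, k))
        (iso (fun i => MvPolynomial.C (coeffs h i)) (fun k => MvPolynomial.X (0, k))
        (fun k => MvPolynomial.X (1, k)) (fun k => MvPolynomial.X (2, k))) k)) =
        wedge u (iso (coeffs h) u w e) := by
        funext k
        fin_cases k <;> simp [wedge, iso, om, hy]
      rw [this, hiso]
    refine ⟨y, by rw [key]; exact hv, ?_⟩
    congr 1

lemma exists_segre (x y z w : ℝ) (hxy : x * y = z * w) :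
    ∃ a b c d : ℝ, x = a * b ∧ y = c * d ∧ z = a * c ∧ w = b * d := by
  by_cases hx : x = 0
  · by_cases hz : z = 0
    · exact ⟨0, w, y, 1, by simp [hx], by simp, by simp [hz], by simp⟩
    · have hw : w = 0 := by
        rw [hx, zero_mul] at hxy
        exact (mul_eq_zero.mp hxy.symm).resolve_left hz
      exact ⟨1, 0, z, y / z, by simp [hx], by field_simp, by simp, by simp [hw]⟩
  · refine ⟨1, x, z, w / x, by simp, ?_, by simp, by field_simp⟩
    field_simp
    linarith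

/-- Parametrization of `p12 = 0` in `Gr(2,4)`. -/
noncomputable def param12 : Param (Gr ∩ hyperplane (coord 0)) where
  σ := Fin 5
  φ := ![0, .X 0 * .X 1, .X 1 * .X 3, .X 0 * .X 2, .X 2 * .X 3, .X 4]
  sound := by
    intro y hv
    refine ⟨(mk_mem_Gr hv).mpr ?_, (mk_mem_hyperplane hv _).mpr ?_⟩
    · simp [plu]; ring
    · simp [coord]
  complete := by
    rintro x ⟨hx1, hx2⟩
    obtain ⟨v, hv, rfl⟩ := exists_mk x
    rw [mk_mem_Gr] at hx1
    rw [mk_mem_hyperplane, coord_apply] at hx2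
    have hp : v 0 * v 5 - v 1 * v 4 + v 3 * v 2 = 0 := hx1
    rw [hx2] at hp
    obtain ⟨a, b, c, d, h1, h2, h3, h4⟩ := exists_segre (v 1) (v 4) (v 3) (v 2) (by linarith)
    have key : (fun k => MvPolynomial.eval ![a, b, c, d, v 5]
        ((![0, .X 0 * .X 1, .X 1 * .X 3, .X 0 * .X 2, .X 2 * .X 3, .X 4] :
          Fin 6 → MvPolynomial (Fin 5) ℝ) k)) = v := by
      funext k
      fin_cases k <;> simp [hx2, h1, h2, h3, h4]
    exact ⟨![a, b, c, d, v 5], by rw [key]; exact hv, by congr 1⟩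

/-- Parametrization of `p34 = 0` in `Gr(2,4)`. -/
noncomputable def param34 : Param (Gr ∩ hyperplane (coord 5)) where
  σ := Fin 5
  φ := ![.X 4, .X 0 * .X 1, .X 1 * .X 3, .X 0 * .X 2, .X 2 * .X 3, 0]
  sound := by
    intro y hv
    refine ⟨(mk_mem_Gr hv).mpr ?_, (mk_mem_hyperplane hv _).mpr ?_⟩
    · simp [plu]; ring
    · simp [coord]
  complete := by
    rintro x ⟨hx1, hx2⟩
    obtain ⟨v, hv, rfl⟩ := exists_mk x
    rw [mk_mem_Gr] at hx1
    rw [mk_mem_hyperplane, coord_apply] at hx2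
    have hp : v 0 * v 5 - v 1 * v 4 + v 3 * v 2 = 0 := hx1
    rw [hx2] at hp
    obtain ⟨a, b, c, d, h1, h2, h3, h4⟩ := exists_segre (v 1) (v 4) (v 3) (v 2) (by linarith)
    have key : (fun k => MvPolynomial.eval ![a, b, c, d, v 0]
        ((![.X 4, .X 0 * .X 1, .X 1 * .X 3, .X 0 * .X 2, .X 2 * .X 3, 0] :
          Fin 6 → MvPolynomial (Fin 5) ℝ) k)) = v := by
      funext k
      fin_cases k <;> simp [hx2, h1, h2, h3, h4]
    exact ⟨![a, b, c, d, v 0], by rw [key]; exact hv, by congr 1⟩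

/-- Parametrization of `p14 = 0` in `Gr(2,4)`. -/
noncomputable def param14 : Param (Gr ∩ hyperplane (coord 3)) where
  σ := Fin 5
  φ := ![.X 0 * .X 1, .X 0 * .X 2, .X 4, 0, .X 1 * .X 3, .X 2 * .X 3]
  sound := by
    intro y hv
    refine ⟨(mk_mem_Gr hv).mpr ?_, (mk_mem_hyperplane hv _).mpr ?_⟩
    · simp [plu]; ring
    · simp [coord]
  complete := by
    rintro x ⟨hx1, hx2⟩
    obtain ⟨v, hv, rfl⟩ := exists_mk x
    rw [mk_mem_Gr] at hx1
    rw [mk_mem_hyperplane, coord_apply] at hx2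
    have hp : v 0 * v 5 - v 1 * v 4 + v 3 * v 2 = 0 := hx1
    rw [hx2] at hp
    obtain ⟨a, b, c, d, h1, h2, h3, h4⟩ := exists_segre (v 0) (v 5) (v 1) (v 4) (by linarith)
    have key : (fun k => MvPolynomial.eval ![a, b, c, d, v 2]
        ((![.X 0 * .X 1, .X 0 * .X 2, .X 4, 0, .X 1 * .X 3, .X 2 * .X 3] :
          Fin 6 → MvPolynomial (Fin 5) ℝ) k)) = v := by
      funext k
      fin_cases k <;> simp [hx2, h1, h2, h3, h4]
    exact ⟨![a, b, c, d, v 2], by rw [key]; exact hv, by congr 1⟩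

/-- Parametrization of `p23 = 0` in `Gr(2,4)`. -/
noncomputable def param23 : Param (Gr ∩ hyperplane (coord 2)) where
  σ := Fin 5
  φ := ![.X 0 * .X 1, .X 0 * .X 2, 0, .X 4, .X 1 * .X 3, .X 2 * .X 3]
  sound := by
    intro y hv
    refine ⟨(mk_mem_Gr hv).mpr ?_, (mk_mem_hyperplane hv _).mpr ?_⟩
    · simp [plu]; ring
    · simp [coord]
  complete := by
    rintro x ⟨hx1, hx2⟩
    obtain ⟨v, hv, rfl⟩ := exists_mk x
    rw [mk_mem_Gr] at hx1
    rw [mk_mem_hyperplane, coord_apply] at hx2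
    have hp : v 0 * v 5 - v 1 * v 4 + v 3 * v 2 = 0 := hx1
    rw [hx2] at hp
    obtain ⟨a, b, c, d, h1, h2, h3, h4⟩ := exists_segre (v 0) (v 5) (v 1) (v 4) (by linarith)
    have key : (fun k => MvPolynomial.eval ![a, b, c, d, v 3]
        ((![.X 0 * .X 1, .X 0 * .X 2, 0, .X 4, .X 1 * .X 3, .X 2 * .X 3] :
          Fin 6 → MvPolynomial (Fin 5) ℝ) k)) = v := by
      funext k
      fin_cases k <;> simp [hx2, h1, h2, h3, h4]
    exact ⟨![a, b, c, d, v 3], by rw [key]; exact hv, by congr 1⟩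

end Pool.Agent.MP_7a7825_ag
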