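import Pool.Agent.MP_7a7825_ag.Zariski

open LinearAlgebra.Projectivization

namespace Pool.Agent.MP_7a7825_ag

/-- the seven forms of a pentahedron -/
def forms (h : V →ₗ[ℝ] ℝ) : Fin 6 ⊕ Fin 1 → V →ₗ[ℝ] ℝ := polytopeForms (fun _ => h)

/-- the polytope cut out of the positive simplex by `h ≥ 0` -/
def Pent (h : V →ₗ[ℝ] ℝ) : Set P5 := {x | ∀ a b, 0 ≤ forms h a x.rep * forms h b x.rep}

/-- the sum of coordinates -/
def lam0 : V →ₗ[ℝ] ℝ := ∑ i, coord i

lemma lam0_apply (v : V) : lam0 v = ∑ i, v i := by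
  simp [lam0, coord]

lemma coord_apply (i : Fin 6) (v : V) : coord i v = v i := rfl

lemma forms_inl (h : V →ₗ[ℝ] ℝ) (i : Fin 6) (v : V) : forms h (Sum.inl i) v = v i := rfl

lemma forms_inr (h : V →ₗ[ℝ] ℝ) (i : Fin 1) (v : V) : forms h (Sum.inr i) v = h v := rfl

variable {h : V →ₗ[ℝ] ℝ}

lemma mk_mem_Pent {v : V} (hv : v ≠ 0) : Projectivization.mk ℝ v hv ∈ Pent h ↔
    ∀ a b, 0 ≤ forms h a v * forms h b v := by
  constructor
  · intro H a b; exact (mul_rep_nonneg hv _ _).mp (H a b)
  · intro H a b; exact (mul_rep_nonneg hv _ _).mpr (H a b)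

lemma isClosed_Pent : IsClosed (Pent h) := by
  have : Pent h = ⋂ a, ⋂ b, {x : P5 | 0 ≤ forms h a x.rep * forms h b x.rep} := by
    ext x; simp [Pent]
  rw [this]
  exact isClosed_iInter fun a => isClosed_iInter fun b => isClosed_mul_nonneg _ _

lemma exists_coord_pos {v : V} (hl : 0 < lam0 v) : ∃ i, 0 < v i := by
  rw [lam0_apply] at hl
  by_contra hcon
  push Not at hcon
  have := Finset.sum_nonpos (s := Finset.univ) (fun i _ => hcon i)
  linarith

lemma forms_nonneg {v : V} (hl : 0 < lam0 v)
    (H : ∀ a b, 0 ≤ forms h a v * forms h b v) (a) : 0 ≤ forms h a v := by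
  obtain ⟨i, hi⟩ := exists_coord_pos hl
  have := H a (Sum.inl i)
  rw [forms_inl] at this
  exact nonneg_of_mul_nonneg_left this hi

lemma ne_zero_of_lam0 {v : V} (hl : lam0 v ≠ 0) : v ≠ 0 := by
  rintro rfl; exact hl (map_zero _)

lemma chartPart_Pent : chartPart lam0 (Pent h) = {v | lam0 v = 1 ∧ ∀ a, 0 ≤ forms h a v} := by
  ext v
  constructor
  · rintro ⟨hl, hv, hm⟩
    rw [mk_mem_Pent] at hm
    exact ⟨hl, forms_nonneg (by rw [hl]; norm_num) hm⟩
  · rintro ⟨hl, hm⟩
    have hv : v ≠ 0 := ne_zero_of_lam0 (by rw [hl]; norm_num)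
    exact ⟨hl, hv, (mk_mem_Pent hv).mpr fun a b => mul_nonneg (hm a) (hm b)⟩

lemma lam0_pos {v : V} (hv : v ≠ 0) (H : ∀ i, 0 ≤ v i) : 0 < lam0 v := by
  rw [lam0_apply]
  have h1 : 0 ≤ ∑ i, v i := Finset.sum_nonneg fun i _ => H i
  rcases h1.lt_or_eq with h2 | h2
  · exact h2
  · exfalso
    apply hv
    funext i
    have := (Finset.sum_eq_zero_iff_of_nonneg (fun i _ => H i)).mp h2.symm i (Finset.mem_univ i)
    simpa using this

/-- normalized representative of a point of the positive simplex -/
lemma exists_normalized {x : P5} (hx : ∀ i j : Fin 6, 0 ≤ x.rep i * x.rep j) :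
    ∃ (v : V) (hv : v ≠ 0), Projectivization.mk ℝ v hv = x ∧ lam0 v = 1 ∧ ∀ i, 0 ≤ v i := by
  have hne := x.rep_nonzero
  have : ∃ i, x.rep i ≠ 0 := by
    by_contra hcon
    push Not at hcon
    exact hne (funext hcon)
  obtain ⟨i, hi⟩ := this
  set c := x.rep i with hc
  have hpos : ∀ j, 0 ≤ (c • x.rep) j := fun j => by
    simpa [hc] using hx i j
  have hne' : c • x.rep ≠ 0 := smul_ne_zero hi hne
  have hl := lam0_pos hne' hpos
  set s := lam0 (c • x.rep) with hs
  refine ⟨s⁻¹ • c • x.rep, smul_ne_zero (inv_ne_zero hl.ne') hne', ?_, ?_, ?_⟩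
  · conv_rhs => rw [← x.mk_rep]
    rw [Projectivization.mk_eq_mk_iff']
    exact ⟨s⁻¹ * c, by rw [smul_smul]⟩
  · rw [map_smul, ← hs, smul_eq_mul, inv_mul_cancel₀ hl.ne']
  · intro j
    rw [Pi.smul_apply, smul_eq_mul]
    exact mul_nonneg (inv_nonneg.mpr hl.le) (hpos j)

/-- if finitely many forms are positive at `w`, they are positive at `w + ε u` -/
lemma exists_pos_add {ι : Type} (s : Finset ι) (F : ι → V →ₗ[ℝ] ℝ) (w u : V)
    (hw : ∀ k ∈ s, 0 < F k w) : ∃ ε : ℝ, 0 < ε ∧ ∀ k ∈ s, 0 < F k (w + ε • u) := by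
  induction s using Finset.cons_induction with
  | empty => exact ⟨1, one_pos, by simp⟩
  | cons a s ha ih =>
    obtain ⟨ε, hε, H⟩ := ih (fun k hk => hw k (Finset.mem_cons.mpr (Or.inr hk)))
    have hwa := hw a (Finset.mem_cons.mpr (Or.inl rfl))
    refine ⟨min ε (F a w / (2 * (|F a u| + 1))), ?_, ?_⟩
    · apply lt_min hε; positivity
    · intro k hk
      set δ := min ε (F a w / (2 * (|F a u| + 1))) with hδ
      have hδpos : 0 < δ := by apply lt_min hε; positivity
      rcases Finset.mem_cons.mp hk with rfl | hk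
      · rw [map_add, map_smul, smul_eq_mul]
        have h1 : δ ≤ F k w / (2 * (|F k u| + 1)) := min_le_right _ _
        have h2 : δ * (|F k u| + 1) ≤ F k w / 2 := by
          calc δ * (|F k u| + 1) ≤ F k w / (2 * (|F k u| + 1)) * (|F k u| + 1) := by gcongr
            _ = F k w / 2 := by field_simp
        have h3 : -(δ * |F k u|) ≤ δ * F k u := by
          have := neg_abs_le (F k u)
          nlinarith
        nlinarith
      · have h1 := H k hk
        have h0 := hw k (Finset.mem_cons.mpr (Or.inr hk))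
        rw [map_add, map_smul, smul_eq_mul] at h1 ⊢
        have h2 : δ ≤ ε := min_le_left _ _
        by_cases hu : 0 ≤ F k u
        · nlinarith
        · push Not at hu
          nlinarith

variable {w : Fin 6 ⊕ Fin 1 → V}

/-- witnesses: `w j` lies on the `j`-th hyperplane and strictly inside all others -/
def IsWitness (h : V →ₗ[ℝ] ℝ) (w : Fin 6 ⊕ Fin 1 → V) : Prop :=
  ∀ j, forms h j (w j) = 0 ∧ ∀ k, k ≠ j → 0 < forms h k (w j)

lemma mem_span_chartPart {v : V} (hv : ∀ a, 0 ≤ forms h a v) (l : V →ₗ[ℝ] ℝ) (hl : l v = 0) :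
    v ∈ Submodule.span ℝ (chartPart lam0 (Pent h) ∩ {v | l v = 0}) := by
  by_cases h0 : v = 0
  · rw [h0]; exact zero_mem _
  have hpos := lam0_pos h0 (fun i => hv (Sum.inl i))
  have : v = lam0 v • (lam0 v)⁻¹ • v := by
    rw [smul_smul, mul_inv_cancel₀ hpos.ne', one_smul]
  rw [this]
  apply Submodule.smul_mem
  apply Submodule.subset_span
  refine ⟨?_, ?_⟩
  · rw [chartPart_Pent]
    refine ⟨by rw [map_smul, smul_eq_mul, inv_mul_cancel₀ hpos.ne'], fun a => ?_⟩
    rw [map_smul, smul_eq_mul]
    exact mul_nonneg (inv_nonneg.mpr hpos.le) (hv a)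
  · show l _ = 0
    rw [map_smul, hl, smul_zero]

lemma isFacetForm (hw : IsWitness h w) (j) : IsFacetForm lam0 (Pent h) (forms h j) := by
  obtain ⟨h0, hpos⟩ := hw j
  refine ⟨?_, ?_, ?_⟩
  · intro hz
    obtain ⟨k, hk⟩ : ∃ k : Fin 6 ⊕ Fin 1, k ≠ j := by
      rcases j with i | i
      · exact ⟨Sum.inr 0, by simp⟩
      · exact ⟨Sum.inl 0, by simp⟩
    have := (hw k).2 j hk.symm
    rw [hz] at this
    simp at this
  · intro v hv
    rw [chartPart_Pent] at hv
    exact hv.2 j
  · apply le_antisymm
    · rw [Submodule.span_le]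
      rintro v ⟨-, hv⟩
      exact hv
    · intro u hu
      rw [LinearMap.mem_ker] at hu
      obtain ⟨ε, hε, H⟩ := exists_pos_add (Finset.univ.erase j) (forms h) (w j) u
        (fun k hk => hpos k (Finset.ne_of_mem_erase hk))
      have h1 : w j + ε • u ∈ Submodule.span ℝ
          (chartPart lam0 (Pent h) ∩ {v | forms h j v = 0}) := by
        have hz : forms h j (w j + ε • u) = 0 := by rw [map_add, map_smul, h0, hu]; simp
        apply mem_span_chartPart _ _ hz
        intro a
        by_cases ha : a = j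
        · subst ha; rw [hz]
        · exact (H a (Finset.mem_erase.mpr ⟨ha, Finset.mem_univ _⟩)).le
      have h2 : w j ∈ Submodule.span ℝ (chartPart lam0 (Pent h) ∩ {v | forms h j v = 0}) := by
        apply mem_span_chartPart _ _ h0
        intro a
        by_cases ha : a = j
        · subst ha; rw [h0]
        · exact (hpos a ha).le
      have h3 : u = ε⁻¹ • ((w j + ε • u) - w j) := by
        rw [add_sub_cancel_left, smul_smul, inv_mul_cancel₀ hε.ne', one_smul]
      rw [h3]
      exact Submodule.smul_mem _ _ (Submodule.sub_mem _ h1 h2)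

lemma exists_interior (hw : IsWitness h w) : ∃ v : V, ∀ a, 0 < forms h a v := by
  refine ⟨w (Sum.inl 0) + w (Sum.inl 1), fun a => ?_⟩
  rw [map_add]
  by_cases h1 : a = Sum.inl 0
  · have e1 := (hw (Sum.inl 0)).1
    have e2 := (hw (Sum.inl 1)).2 a (by rw [h1]; simp)
    rw [h1] at e2 ⊢
    linarith
  · have e1 := (hw (Sum.inl 0)).2 a h1
    by_cases h2 : a = Sum.inl 1
    · have e2 := (hw (Sum.inl 1)).1
      rw [h2] at e1 ⊢
      linarith
    · have e2 := (hw (Sum.inl 1)).2 a h2
      linarith

lemma isPolytope (hw : IsWitness h w) : IsPolytopeInChart lam0 (Pent h) where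
  subset_chart := by
    intro x hx
    have hx' : ∀ i j : Fin 6, 0 ≤ x.rep i * x.rep j := fun i j => hx (Sum.inl i) (Sum.inl j)
    obtain ⟨v, hv, rfl, h1, -⟩ := exists_normalized hx'
    obtain ⟨c, hc, he⟩ := rep_mk v hv
    rw [he, map_smul, h1]
    simpa using hc
  halfspaces := by
    classical
    refine ⟨Finset.univ.image (forms h), ?_⟩
    rw [chartPart_Pent]
    ext v
    constructor
    · rintro ⟨h1, h2⟩
      refine ⟨h1, fun l hl => ?_⟩
      obtain ⟨a, -, rfl⟩ := Finset.mem_image.mp hl
      exact h2 a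
    · rintro ⟨h1, h2⟩
      exact ⟨h1, fun a => h2 _ (Finset.mem_image.mpr ⟨a, Finset.mem_univ _, rfl⟩)⟩
  bounded := by
    rw [chartPart_Pent]
    apply (Metric.isBounded_Icc (0 : V) (fun _ => 1)).subset
    rintro v ⟨hl, hv⟩
    refine ⟨fun i => hv (Sum.inl i), fun i => ?_⟩
    rw [lam0_apply] at hl
    have := Finset.single_le_sum (f := v) (fun j _ => hv (Sum.inl j)) (Finset.mem_univ i)
    rw [hl] at this
    exact this
  fullDim := by
    rw [eq_top_iff]
    intro u _
    obtain ⟨w0, hw0⟩ := exists_interior hw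
    obtain ⟨ε, hε, H⟩ := exists_pos_add Finset.univ (forms h) w0 u (fun k _ => hw0 k)
    have e : (chartPart lam0 (Pent h) ∩ {v | (0 : V →ₗ[ℝ] ℝ) v = 0}) =
        chartPart lam0 (Pent h) := by
      ext v; simp
    have h1 := mem_span_chartPart (fun a => (H a (Finset.mem_univ a)).le) (0 : V →ₗ[ℝ] ℝ) (by simp)
    have h2 := mem_span_chartPart (fun a => (hw0 a).le) (0 : V →ₗ[ℝ] ℝ) (by simp)
    rw [e] at h1 h2
    have h3 : u = ε⁻¹ • ((w0 + ε • u) - w0) := by
      rw [add_sub_cancel_left, smul_smul, inv_mul_cancel₀ hε.ne', one_smul]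
    rw [h3]
    exact Submodule.smul_mem _ _ (Submodule.sub_mem _ h1 h2)

lemma Pent_subset : Pent h ⊆ P5nonneg := fun _ hx i j => hx (Sum.inl i) (Sum.inl j)

lemma w_ne_zero (hw : IsWitness h w) (j) : w j ≠ 0 := by
  intro hz
  obtain ⟨k, hk⟩ : ∃ k : Fin 6 ⊕ Fin 1, k ≠ j := by
    rcases j with i | i
    · exact ⟨Sum.inr 0, by simp⟩
    · exact ⟨Sum.inl 0, by simp⟩
  have := (hw j).2 k hk
  rw [hz, map_zero] at this
  exact lt_irrefl _ this

lemma hyperplane_injective (hw : IsWitness h w) :
    Function.Injective (fun j => hyperplane (forms h j)) := by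
  intro j k hjk
  by_contra hne
  have h1 : Projectivization.mk ℝ (w j) (w_ne_zero hw j) ∈ hyperplane (forms h j) := by
    rw [mk_mem_hyperplane]; exact (hw j).1
  have hjk' : hyperplane (forms h j) = hyperplane (forms h k) := hjk
  rw [hjk', mk_mem_hyperplane] at h1
  have := (hw j).2 k (Ne.symm hne)
  rw [h1] at this
  exact lt_irrefl _ this

lemma facetHyperplanes_eq (hw : IsWitness h w) :
    facetHyperplanes lam0 (Pent h) = Set.range (fun j => hyperplane (forms h j)) := by
  ext H
  constructor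
  · rintro ⟨l, ⟨hl0, hlnn, hlspan⟩, rfl⟩
    -- some form vanishes on the face
    have key : ∃ j, ∀ v ∈ chartPart lam0 (Pent h) ∩ {v | l v = 0}, forms h j v = 0 := by
      by_contra hcon
      push Not at hcon
      choose p hp hpne using hcon
      have hp' : ∀ j, 0 < forms h j (p j) := by
        intro j
        have h1 := (hp j).1
        rw [chartPart_Pent] at h1
        exact lt_of_le_of_ne (h1.2 j) (Ne.symm (hpne j))
      set q := ∑ j, p j with hq
      have hqpos : ∀ a, 0 < forms h a q := by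
        intro a
        rw [hq, map_sum]
        apply Finset.sum_pos'
        · intro j _
          have h1 := (hp j).1
          rw [chartPart_Pent] at h1
          exact h1.2 a
        · exact ⟨a, Finset.mem_univ a, hp' a⟩
      have hlq : l q = 0 := by
        rw [hq, map_sum]
        exact Finset.sum_eq_zero fun j _ => (hp j).2
      obtain ⟨u, hu⟩ : ∃ u, l u < 0 := by
        by_contra hcon2
        push Not at hcon2
        apply hl0
        ext u
        have h1 := hcon2 (Pi.single u 1)
        have h2 := hcon2 (-(Pi.single u 1))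
        rw [map_neg] at h2
        simp only [LinearMap.coe_comp, LinearMap.coe_single, Function.comp_apply,
          LinearMap.zero_apply]
        linarith
      obtain ⟨ε, hε, Hε⟩ := exists_pos_add Finset.univ (forms h) q u (fun k _ => hqpos k)
      set z := q + ε • u with hz
      have hz1 : ∀ a, 0 ≤ forms h a z := fun a => (Hε a (Finset.mem_univ a)).le
      have hz0 : z ≠ 0 := by
        intro h0
        have := Hε (Sum.inl 0) (Finset.mem_univ _)
        rw [h0, map_zero] at this
        exact lt_irrefl _ this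
      have hlz := lam0_pos hz0 (fun i => hz1 (Sum.inl i))
      have hmem : (lam0 z)⁻¹ • z ∈ chartPart lam0 (Pent h) := by
        rw [chartPart_Pent]
        refine ⟨by rw [map_smul, smul_eq_mul, inv_mul_cancel₀ hlz.ne'], fun a => ?_⟩
        rw [map_smul, smul_eq_mul]
        exact mul_nonneg (inv_nonneg.mpr hlz.le) (hz1 a)
      have := hlnn _ hmem
      have hlz' : l z = ε * l u := by
        rw [hz, map_add, map_smul, hlq, zero_add, smul_eq_mul]
      rw [map_smul, smul_eq_mul, hlz'] at this
      have h2 : 0 < (lam0 z)⁻¹ := inv_pos.mpr hlz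
      nlinarith [mul_pos h2 hε]
    obtain ⟨j, hj⟩ := key
    have hker : LinearMap.ker l ≤ LinearMap.ker (forms h j) := by
      rw [← hlspan, Submodule.span_le]
      intro v hv
      exact hj v hv
    have hle : LinearMap.ker l = LinearMap.ker (forms h j) := by
      have hj0 := (isFacetForm hw j).1
      have h1 : Module.finrank ℝ (LinearMap.ker l) = Module.finrank ℝ (LinearMap.ker (forms h j)) := by
        have e1 := LinearMap.finrank_range_add_finrank_ker l
        have e2 := LinearMap.finrank_range_add_finrank_ker (forms h j)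
        have r1 : Module.finrank ℝ (LinearMap.range l) = 1 := by
          rw [LinearMap.range_eq_top.mpr (LinearMap.surjective hl0), finrank_top]
          simp
        have r2 : Module.finrank ℝ (LinearMap.range (forms h j)) = 1 := by
          rw [LinearMap.range_eq_top.mpr (LinearMap.surjective hj0), finrank_top]
          simp
        omega
      exact Submodule.eq_of_le_of_finrank_eq hker h1
    refine ⟨j, ?_⟩
    ext x
    have : x.rep ∈ LinearMap.ker l ↔ x.rep ∈ LinearMap.ker (forms h j) := by rw [hle]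
    rw [LinearMap.mem_ker, LinearMap.mem_ker] at this
    exact this.symm
  · rintro ⟨j, rfl⟩
    exact ⟨forms h j, isFacetForm hw j, rfl⟩

lemma isSimple (hc : ∀ i, h (Pi.single i 1) ≠ 0) : IsSimpleArrangement (forms h) := by
  classical
  intro s hs
  rw [Fintype.linearIndependent_iff]
  intro g hg
  set G : Fin 6 ⊕ Fin 1 → ℝ := fun j => if hj : j ∈ s then g ⟨j, hj⟩ else 0 with hG
  have hGs : ∀ j : s, G j = g j := fun j => by simp [hG]
  have hev : ∀ v : V, ∑ j : Fin 6 ⊕ Fin 1, G j * forms h j v = 0 := by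
    intro v
    have h1 := congrArg (fun f : V →ₗ[ℝ] ℝ => f v) hg
    simp only [LinearMap.sum_apply, LinearMap.smul_apply, smul_eq_mul, LinearMap.zero_apply] at h1
    rw [← h1]
    have h2 : ∑ j : s, g j * forms h j v = ∑ j : s, G j * forms h j v :=
      Finset.sum_congr rfl fun j _ => by rw [hGs]
    rw [h2, Finset.sum_coe_sort s (fun j => G j * forms h j v)]
    symm
    apply Finset.sum_subset (Finset.subset_univ s)
    intro j _ hj
    simp [hG, hj]
  have hev' : ∀ i : Fin 6, G (Sum.inl i) + G (Sum.inr 0) * h (Pi.single i 1) = 0 := by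
    intro i
    have := hev (Pi.single i 1)
    rw [Fintype.sum_sum_type] at this
    simp only [forms_inl, forms_inr, Finset.univ_unique, Fin.default_eq_zero,
      Finset.sum_singleton] at this
    rw [Finset.sum_eq_single i] at this
    · simpa using this
    · intro b _ hb
      rw [Pi.single_eq_of_ne hb, mul_zero]
    · intro hi; exact absurd (Finset.mem_univ i) hi
  have hr : G (Sum.inr 0) = 0 := by
    by_cases h0 : (Sum.inr 0 : Fin 6 ⊕ Fin 1) ∈ s
    · obtain ⟨j, hj⟩ : ∃ j, j ∉ s := by
        by_contra hcon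
        push Not at hcon
        have : s = Finset.univ := Finset.eq_univ_iff_forall.mpr hcon
        rw [this] at hs
        simp at hs
      rcases j with i | i
      · have h1 := hev' i
        have h2 : G (Sum.inl i) = 0 := by simp [hG, hj]
        rw [h2, zero_add] at h1
        exact (mul_eq_zero.mp h1).resolve_right (hc i)
      · exact absurd h0 (by rwa [Subsingleton.elim i 0] at hj)
    · simp [hG, h0]
  intro j
  rw [← hGs]
  rcases hj : (j : Fin 6 ⊕ Fin 1) with i | i
  · have h1 := hev' i
    rw [hr, zero_mul, add_zero] at h1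
    exact h1
  · rw [Subsingleton.elim i 0]
    exact hr

end Pool.Agent.MP_7a7825_ag
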