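import Pool.Agent.MP_7a7825_ag.Criterion

open LinearAlgebra.Projectivization Filter Topology

namespace Pool.Agent.MP_7a7825_ag

/-- the Gaussian totally positive matrix applied to a vector -/
def gauss (q : ℝ) (u : Fin 4 → ℝ) : Fin 4 → ℝ :=
  ![u 0 + q * u 1 + q ^ 4 * u 2 + q ^ 9 * u 3, q * u 0 + u 1 + q * u 2 + q ^ 4 * u 3,
    q ^ 4 * u 0 + q * u 1 + u 2 + q * u 3, q ^ 9 * u 0 + q ^ 4 * u 1 + q * u 2 + u 3]

def expA : Fin 6 → Fin 6 → ℕ := ![![0, 1, 2, 4, 5, 8], ![1, 0, 1, 1, 2, 5], ![2, 1, 0, 2, 1, 2],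
  ![4, 1, 2, 0, 1, 4], ![5, 2, 1, 1, 0, 1], ![8, 5, 2, 4, 1, 0]]

def expB : Fin 6 → Fin 6 → ℕ := ![![2, 4, 2, 6, 4, 2], ![4, 8, 4, 12, 8, 4], ![2, 4, 2, 6, 4, 2],
  ![6, 12, 6, 18, 12, 6], ![4, 8, 4, 12, 8, 4], ![2, 4, 2, 6, 4, 2]]

lemma wedge_gauss (q : ℝ) (u w : Fin 4 → ℝ) (k : Fin 6) :
    wedge (gauss q u) (gauss q w) k =
      ∑ i, q ^ expA k i * (1 - q ^ expB k i) * wedge u w i := by
  rw [Fin.sum_univ_six]
  fin_cases k <;> simp [wedge, gauss, expA, expB] <;> ring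

lemma wedge_gauss_pos {q : ℝ} (hq0 : 0 < q) (hq1 : q < 1) {u w : Fin 4 → ℝ}
    (hne : wedge u w ≠ 0) (hnn : ∀ i, 0 ≤ wedge u w i) (k : Fin 6) :
    0 < wedge (gauss q u) (gauss q w) k := by
  rw [wedge_gauss]
  have hB : ∀ k i, expB k i ≠ 0 := by decide
  have hc : ∀ i, 0 < q ^ expA k i * (1 - q ^ expB k i) := fun i => by
    have := pow_lt_one₀ hq0.le hq1 (hB k i)
    have h2 : 0 < q ^ expA k i := by positivity
    exact mul_pos h2 (by linarith)
  obtain ⟨i, hi⟩ : ∃ i, wedge u w i ≠ 0 := by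
    by_contra hcon
    push Not at hcon
    exact hne (funext hcon)
  apply Finset.sum_pos'
  · intro i _
    exact mul_nonneg (hc i).le (hnn i)
  · exact ⟨i, Finset.mem_univ i, mul_pos (hc i) (lt_of_le_of_ne (hnn i) (Ne.symm hi))⟩

variable {h : V →ₗ[ℝ] ℝ}

/-- points with `h > 0` are limits of interior points -/
lemma mem_closure_of_h_pos {v : V} (hv : v ≠ 0) (hp : plu v = 0) (hnn : ∀ i, 0 ≤ v i)
    (hh : 0 < h v) : v ∈ closure {z | plu z = 0 ∧ ∀ a, 0 < forms h a z} := by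
  obtain ⟨u, w, rfl⟩ := exists_wedge hv hp
  have hcont : Continuous (fun q : ℝ => wedge (gauss q u) (gauss q w)) := by
    apply continuous_pi
    intro k
    simp only [wedge_gauss]
    fun_prop
  have h0 : wedge (gauss 0 u) (gauss 0 w) = wedge u w := by
    have : ∀ u : Fin 4 → ℝ, gauss 0 u = u := by
      intro u; funext k; fin_cases k <;> simp [gauss]
    rw [this, this]
  have ht : Tendsto (fun q : ℝ => wedge (gauss q u) (gauss q w)) (𝓝[>] 0) (𝓝 (wedge u w)) := by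
    have := hcont.tendsto 0
    rw [h0] at this
    exact this.mono_left nhdsWithin_le_nhds
  apply mem_closure_of_tendsto ht
  have hh' : ∀ᶠ q : ℝ in 𝓝[>] 0, 0 < h (wedge (gauss q u) (gauss q w)) := by
    have hc := h.continuous_of_finiteDimensional
    have : Tendsto (fun q : ℝ => h (wedge (gauss q u) (gauss q w))) (𝓝[>] 0)
        (𝓝 (h (wedge u w))) := (hc.tendsto _).comp ht
    exact this.eventually (lt_mem_nhds hh)
  have h1 : ∀ᶠ q : ℝ in 𝓝[>] 0, q < 1 := by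
    exact nhdsWithin_le_nhds (gt_mem_nhds (by norm_num))
  filter_upwards [hh', h1, self_mem_nhdsWithin] with q hq hq1 hq0
  refine ⟨plu_wedge _ _, ?_⟩
  rintro (i | i)
  · exact wedge_gauss_pos hq0 hq1 hv hnn i
  · exact hq

/-- moving off a zero of a convex quadratic polynomial -/
lemma quad_pos {α β γ : ℝ} (hα : 0 ≤ α) (h1 : α - β + γ = 0) (hne : ¬ (α = 0 ∧ β = 0)) :
    ∃ s : ℝ, ∀ᶠ δ in 𝓝[>] (0 : ℝ), 0 < α * (1 + s * δ) ^ 2 - β * (1 + s * δ) + γ := by
  have hrw : ∀ s δ : ℝ, α * (1 + s * δ) ^ 2 - β * (1 + s * δ) + γ =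
      (s * δ) * (α * (2 + s * δ) - β) := by
    intro s δ
    linear_combination h1
  rcases lt_trichotomy (2 * α - β) 0 with hlt | heq | hgt
  · refine ⟨-1, ?_⟩
    have hc : Continuous (fun δ : ℝ => α * (2 + (-1) * δ) - β) := by fun_prop
    have ht : Tendsto (fun δ : ℝ => α * (2 + (-1) * δ) - β) (𝓝[>] 0) (𝓝 (α * 2 - β)) := by
      have := hc.tendsto 0
      simp only [mul_zero, add_zero] at this
      exact this.mono_left nhdsWithin_le_nhds
    have := ht.eventually (gt_mem_nhds (show α * 2 - β < 0 by linarith))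
    filter_upwards [this, self_mem_nhdsWithin] with δ hδ hδ0
    rw [hrw]
    have hδ0' : (0 : ℝ) < δ := hδ0
    nlinarith
  · refine ⟨1, ?_⟩
    have hα' : 0 < α := by
      refine lt_of_le_of_ne hα (fun h0 => hne ⟨h0.symm, ?_⟩)
      rw [← h0] at heq; linarith
    filter_upwards [self_mem_nhdsWithin] with δ hδ0
    rw [hrw]
    have hδ0' : (0 : ℝ) < δ := hδ0
    have : α * (2 + 1 * δ) - β = α * δ := by linarith
    rw [this]
    positivity
  · refine ⟨1, ?_⟩
    have hc : Continuous (fun δ : ℝ => α * (2 + 1 * δ) - β) := by fun_prop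
    have ht : Tendsto (fun δ : ℝ => α * (2 + 1 * δ) - β) (𝓝[>] 0) (𝓝 (α * 2 - β)) := by
      have := hc.tendsto 0
      simp only [mul_zero, add_zero] at this
      exact this.mono_left nhdsWithin_le_nhds
    have := ht.eventually (lt_mem_nhds (show 0 < α * 2 - β by linarith))
    filter_upwards [this, self_mem_nhdsWithin] with δ hδ hδ0
    rw [hrw]
    have hδ0' : (0 : ℝ) < δ := hδ0
    rw [one_mul] at *
    positivity

/-- regularity from a torus action along which `h` is a convex quadratic polynomial -/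
lemma reg_of_torus (z : V → ℝ → V) (α β γ : V → ℝ)
    (hz1 : ∀ v, z v 1 = v) (hzc : ∀ v, Continuous (z v))
    (hzp : ∀ v l, plu v = 0 → plu (z v l) = 0)
    (hznn : ∀ v l, 0 < l → (∀ i, 0 ≤ v i) → ∀ i, 0 ≤ z v l i)
    (hzh : ∀ v l, h (z v l) = α v * l ^ 2 - β v * l + γ v)
    (hα : ∀ v : V, (∀ i, 0 ≤ v i) → 0 ≤ α v)
    (hne : ∀ v : V, v ≠ 0 → (∀ i, 0 ≤ v i) → h v = 0 → ¬ (α v = 0 ∧ β v = 0)) :
    ∀ v : V, v ≠ 0 → plu v = 0 → (∀ a, 0 ≤ forms h a v) →
      v ∈ closure {z | plu z = 0 ∧ ∀ a, 0 < forms h a z} := by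
  intro v hv hp hnn
  have hnn' : ∀ i, 0 ≤ v i := fun i => hnn (Sum.inl i)
  rcases (hnn (Sum.inr 0)).lt_or_eq with hh | hh
  · exact mem_closure_of_h_pos hv hp hnn' hh
  · rw [forms_inr] at hh
    have e1 : α v - β v + γ v = 0 := by
      have := hzh v 1
      rw [hz1, ← hh] at this
      linarith
    obtain ⟨s, hs⟩ := quad_pos (hα v hnn') e1 (hne v hv hnn' hh.symm)
    rw [← closure_closure]
    have ht : Tendsto (fun δ : ℝ => z v (1 + s * δ)) (𝓝[>] 0) (𝓝 v) := by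
      have hc : Continuous (fun δ : ℝ => z v (1 + s * δ)) := (hzc v).comp (by fun_prop)
      have := hc.tendsto 0
      simp only [mul_zero, add_zero, hz1] at this
      exact this.mono_left nhdsWithin_le_nhds
    apply mem_closure_of_tendsto ht
    have h2 : ∀ᶠ δ : ℝ in 𝓝[>] 0, 0 < 1 + s * δ := by
      have hc : Continuous (fun δ : ℝ => 1 + s * δ) := by fun_prop
      have ht' : Tendsto (fun δ : ℝ => 1 + s * δ) (𝓝[>] 0) (𝓝 1) := by
        have := hc.tendsto 0
        simp only [mul_zero, add_zero] at this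
        exact this.mono_left nhdsWithin_le_nhds
      exact ht'.eventually (lt_mem_nhds (by norm_num))
    filter_upwards [hs, h2] with δ hδ hδ2
    have hpos : 0 < h (z v (1 + s * δ)) := by rw [hzh]; exact hδ
    apply mem_closure_of_h_pos _ (hzp v _ hp) (hznn v _ hδ2 hnn') hpos
    intro h0
    rw [h0, map_zero] at hpos
    exact lt_irrefl _ hpos

end Pool.Agent.MP_7a7825_ag
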