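import Pool.Agent.MP_7a7825_ag.Basic

open LinearAlgebra.Projectivization

namespace Pool.Agent.MP_7a7825_ag

/-- A polynomial parametrization of a subset of projective space. -/
structure Param (C : Set P5) where
  σ : Type
  [fin : Fintype σ]
  φ : Fin 6 → MvPolynomial σ ℝ
  sound : ∀ (y : σ → ℝ) (hv : (fun k => MvPolynomial.eval y (φ k)) ≠ 0),
    Projectivization.mk ℝ (fun k => MvPolynomial.eval y (φ k)) hv ∈ C
  complete : ∀ x ∈ C, ∃ (y : σ → ℝ) (hv : (fun k => MvPolynomial.eval y (φ k)) ≠ 0),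
    Projectivization.mk ℝ (fun k => MvPolynomial.eval y (φ k)) hv = x

attribute [instance] Param.fin

namespace Param

variable {C : Set P5} (p : Param C)

/-- the parametrizing map -/
noncomputable def Φ (y : p.σ → ℝ) : V := fun k => MvPolynomial.eval y (p.φ k)

lemma sound' (y : p.σ → ℝ) (hv : p.Φ y ≠ 0) : Projectivization.mk ℝ (p.Φ y) hv ∈ C :=
  p.sound y hv

lemma complete' {x : P5} (hx : x ∈ C) : ∃ (y : p.σ → ℝ) (hv : p.Φ y ≠ 0),
    Projectivization.mk ℝ (p.Φ y) hv = x := p.complete x hx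

lemma eval_bind (f : MvPolynomial (Fin 6) ℝ) (y : p.σ → ℝ) :
    MvPolynomial.eval y (MvPolynomial.bind₁ p.φ f) = MvPolynomial.eval (p.Φ y) f := by
  simp only [← MvPolynomial.coe_aeval_eq_eval, RingHom.coe_coe]
  rw [← AlgHom.comp_apply, MvPolynomial.bind₁, MvPolynomial.comp_aeval]
  rfl

lemma continuous_Φ : Continuous p.Φ := by
  apply continuous_pi
  intro k
  exact MvPolynomial.continuous_eval _

/-- a homogeneous polynomial with nonzero composite takes a nonzero value at a point of `C` -/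
lemma exists_point (hC : C.Nonempty) (F : MvPolynomial p.σ ℝ) (hF : F ≠ 0) :
    ∃ (y : p.σ → ℝ) (_ : p.Φ y ≠ 0), MvPolynomial.eval y F ≠ 0 := by
  obtain ⟨x, hx⟩ := hC
  obtain ⟨y₀, hy₀, -⟩ := p.complete' hx
  have : ∃ k, p.φ k ≠ 0 := by
    by_contra hcon
    push Not at hcon
    apply hy₀
    funext k
    show MvPolynomial.eval y₀ (p.φ k) = 0
    rw [hcon k, map_zero]
  obtain ⟨k, hk⟩ := this
  have hprod : F * p.φ k ≠ 0 := mul_ne_zero hF hk
  by_contra hcon
  push Not at hcon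
  apply hprod
  apply MvPolynomial.funext
  intro y
  rw [map_mul, map_zero]
  by_cases hy : p.Φ y = 0
  · have : MvPolynomial.eval y (p.φ k) = 0 := congrFun hy k
    rw [this, mul_zero]
  · rw [hcon y hy, zero_mul]

include p in
lemma irreducible (hC : C.Nonempty) (hZ : IsZariskiClosed C) : IsZariskiIrreducible C := by
  refine ⟨hZ, hC, ?_⟩
  rintro Z₁ Z₂ ⟨I₁, hI₁, rfl⟩ ⟨I₂, hI₂, rfl⟩ hsub
  by_contra hcon
  push Not at hcon
  obtain ⟨h1, h2⟩ := hcon
  have key : ∀ I : Set (MvPolynomial (Fin 6) ℝ), (∀ f ∈ I, ∃ n, f.IsHomogeneous n) →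
      ¬ C ⊆ {x | ∀ f ∈ I, MvPolynomial.eval x.rep f = 0} →
      ∃ f ∈ I, MvPolynomial.bind₁ p.φ f ≠ 0 := by
    intro I hI hns
    rw [Set.not_subset] at hns
    obtain ⟨x, hxC, hx⟩ := hns
    simp only [Set.mem_ofPred_eq, not_forall] at hx
    obtain ⟨f, hf, hfx⟩ := hx
    refine ⟨f, hf, fun h0 => hfx ?_⟩
    obtain ⟨y, hy, rfl⟩ := p.complete' hxC
    obtain ⟨n, hn⟩ := hI f hf
    rw [eval_rep_eq_zero hn]
    have := p.eval_bind f y
    rw [h0, map_zero] at this
    exact this.symm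
  obtain ⟨f₁, hf₁, hb₁⟩ := key I₁ hI₁ h1
  obtain ⟨f₂, hf₂, hb₂⟩ := key I₂ hI₂ h2
  obtain ⟨y, hy, hne⟩ := p.exists_point hC _ (mul_ne_zero hb₁ hb₂)
  rw [map_mul, p.eval_bind, p.eval_bind] at hne
  have hmem := hsub (p.sound' y hy)
  obtain ⟨n₁, hn₁⟩ := hI₁ f₁ hf₁
  obtain ⟨n₂, hn₂⟩ := hI₂ f₂ hf₂
  rcases hmem with hm | hm
  · have := hm f₁ hf₁
    rw [eval_rep_eq_zero hn₁] at this
    exact (left_ne_zero_of_mul hne) this
  · have := hm f₂ hf₂
    rw [eval_rep_eq_zero hn₂] at this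
    exact (right_ne_zero_of_mul hne) this

include p in
/-- nonempty relatively open subsets are Zariski dense -/
lemma dense {O : Set P5} (hO : IsOpen O) (hne : (O ∩ C).Nonempty) {Z : Set P5}
    (hZ : IsZariskiClosed Z) (hsub : O ∩ C ⊆ Z) : C ⊆ Z := by
  obtain ⟨I, hI, rfl⟩ := hZ
  intro x hx f hf
  obtain ⟨n, hn⟩ := hI f hf
  -- open set of parameters
  have hopen : IsOpen {y : p.σ → ℝ | ∃ hy : p.Φ y ≠ 0, Projectivization.mk ℝ (p.Φ y) hy ∈ O} := by
    have h1 : IsOpen {v : V | ∃ hv : v ≠ 0, Projectivization.mk ℝ v hv ∈ O} := by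
      have h2 : IsOpen (proj ⁻¹' O) := (isOpen_iff_proj O).mp hO
      have h3 : IsOpen ({v : V | v ≠ 0}) := isOpen_ne
      have h4 := (h3.isOpenEmbedding_subtypeVal).isOpenMap _ h2
      convert h4 using 1
      ext v
      constructor
      · rintro ⟨hv, hm⟩; exact ⟨⟨v, hv⟩, hm, rfl⟩
      · rintro ⟨⟨w, hw⟩, hm, rfl⟩; exact ⟨hw, hm⟩
    exact h1.preimage p.continuous_Φ
  obtain ⟨x₀, hx₀O, hx₀C⟩ := hne
  obtain ⟨y₀, hy₀, hyx⟩ := p.complete' hx₀C
  have hy₀mem : y₀ ∈ {y : p.σ → ℝ | ∃ hy : p.Φ y ≠ 0, Projectivization.mk ℝ (p.Φ y) hy ∈ O} := by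
    refine ⟨hy₀, ?_⟩
    have : Projectivization.mk ℝ (p.Φ y₀) hy₀ = x₀ := hyx
    rw [this]; exact hx₀O
  obtain ⟨ε, hε, hball⟩ := Metric.isOpen_iff.mp hopen y₀ hy₀mem
  have hzero : MvPolynomial.bind₁ p.φ f = 0 := by
    apply MvPolynomial.funext_set (fun i => Set.Ioo (y₀ i - ε) (y₀ i + ε))
    · intro i
      exact Set.Ioo_infinite (by linarith)
    · intro y hy
      have hyb : y ∈ Metric.ball y₀ ε := by
        rw [Metric.mem_ball, dist_pi_lt_iff hε]
        intro i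
        have := hy i (Set.mem_univ i)
        rw [Real.dist_eq, abs_lt]
        constructor <;> linarith [this.1, this.2]
      obtain ⟨hyne, hyO⟩ := hball hyb
      have hC' := p.sound' y hyne
      have := hsub ⟨hyO, hC'⟩ f hf
      rw [eval_rep_eq_zero hn] at this
      rw [p.eval_bind, this, map_zero]
  obtain ⟨y, hy, rfl⟩ := p.complete' hx
  rw [eval_rep_eq_zero hn]
  have := p.eval_bind f y
  rw [hzero, map_zero] at this
  exact this.symm

end Param

lemma IsZariskiClosed.zariskiClosure_subset {A Z : Set P5} (hZ : IsZariskiClosed Z) (h : A ⊆ Z) :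
    zariskiClosure A ⊆ Z := Set.sInter_subset_of_mem ⟨hZ, h⟩

lemma subset_zariskiClosure (A : Set P5) : A ⊆ zariskiClosure A :=
  Set.subset_sInter fun _ h => h.2

lemma isZariskiClosed_empty : IsZariskiClosed ∅ := by
  refine ⟨{1}, ?_, ?_⟩
  · intro f hf
    rw [Set.mem_singleton_iff] at hf
    subst hf
    exact ⟨0, MvPolynomial.isHomogeneous_one _ _⟩
  · ext x; simp

lemma IsZariskiClosed.union {Z₁ Z₂ : Set P5} (h₁ : IsZariskiClosed Z₁) (h₂ : IsZariskiClosed Z₂) :
    IsZariskiClosed (Z₁ ∪ Z₂) := by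
  obtain ⟨I₁, hI₁, rfl⟩ := h₁
  obtain ⟨I₂, hI₂, rfl⟩ := h₂
  refine ⟨{f | ∃ a ∈ I₁, ∃ b ∈ I₂, f = a * b}, ?_, ?_⟩
  · rintro f ⟨a, ha, b, hb, rfl⟩
    obtain ⟨n, hn⟩ := hI₁ a ha
    obtain ⟨m, hm⟩ := hI₂ b hb
    exact ⟨n + m, hn.mul hm⟩
  · ext x
    constructor
    · rintro (hx | hx)
      · rintro f ⟨a, ha, b, hb, rfl⟩
        rw [map_mul, hx a ha, zero_mul]
      · rintro f ⟨a, ha, b, hb, rfl⟩
        rw [map_mul, hx b hb, mul_zero]
    · intro hx
      by_contra hcon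
      simp only [Set.mem_union, Set.mem_ofPred_eq, not_or, not_forall] at hcon
      obtain ⟨⟨a, ha, hax⟩, ⟨b, hb, hbx⟩⟩ := hcon
      have := hx (a * b) ⟨a, ha, b, hb, rfl⟩
      rw [map_mul] at this
      exact (mul_ne_zero hax hbx) this

lemma isZariskiClosed_iUnion {ι : Type} [Finite ι] {C : ι → Set P5}
    (h : ∀ i, IsZariskiClosed (C i)) : IsZariskiClosed (⋃ i, C i) := by
  have key : ∀ s : Set ι, s.Finite → IsZariskiClosed (⋃ i ∈ s, C i) := by
    intro s hs
    induction s, hs using Set.Finite.induction_on with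
    | empty => simpa using isZariskiClosed_empty
    | insert _ _ ih =>
      rw [Set.biUnion_insert]
      exact (h _).union ih
  simpa using key Set.univ Set.finite_univ

/-- irreducible components of a finite union of irreducible closed sets without inclusions -/
lemma irredComponent_iUnion {ι : Type} [Finite ι] {C : ι → Set P5}
    (hC : ∀ i, IsZariskiIrreducible (C i)) (hinc : ∀ i j, C i ⊆ C j → i = j) :
    {D | IsIrredComponent D (⋃ i, C i)} = Set.range C := by
  have key : ∀ (D : Set P5), IsZariskiIrreducible D → ∀ s : Set ι, s.Finite →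
      D ⊆ (⋃ i ∈ s, C i) → ∃ i, D ⊆ C i := by
    intro D hD s hs
    induction s, hs using Set.Finite.induction_on with
    | empty =>
      intro h
      obtain ⟨x, hx⟩ := hD.2.1
      simpa using h hx
    | @insert a s _ hs' ih =>
      intro h
      rw [Set.biUnion_insert] at h
      have hcl : IsZariskiClosed (⋃ i ∈ s, C i) := by
        have := Set.Finite.to_subtype hs'
        rw [Set.biUnion_eq_iUnion]
        exact isZariskiClosed_iUnion (fun i => (hC i.1).1)
      rcases hD.2.2 _ _ (hC a).1 hcl h with h1 | h1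
      · exact ⟨a, h1⟩
      · exact ih h1
  have key' : ∀ (D : Set P5), IsZariskiIrreducible D → D ⊆ (⋃ i, C i) → ∃ i, D ⊆ C i := by
    intro D hD h
    exact key D hD Set.univ Set.finite_univ (by simpa using h)
  ext D
  constructor
  · rintro ⟨hD, hsub, hmax⟩
    obtain ⟨i, hi⟩ := key' D hD hsub
    exact ⟨i, hmax (C i) (hC i) (Set.subset_iUnion C i) hi⟩
  · rintro ⟨i, rfl⟩
    refine ⟨hC i, Set.subset_iUnion C i, ?_⟩
    intro C' hC' hsub hle
    obtain ⟨j, hj⟩ := key' C' hC' hsub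
    have : i = j := hinc i j (hle.trans hj)
    subst this
    exact Set.Subset.antisymm hj hle

end Pool.Agent.MP_7a7825_ag
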